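import Pool.Agent.Helper85.IP.K21Gen
import Pool.Agent.Helper27.IP.K2M5
import Pool.Agent.Helper27.IP.NKap3
import Pool.Agent.Helper36.IP.Mono

/-!
TH-P, K2-1: the state `t_3 s_1 = s_2 t_1`.
-/

namespace Pool.Agent.Helper85.IP

open Pool.Agent.Helper54.IP Pool.Agent.Helper36.IP Pool.Agent.Helper76.IP Pool.Agent.Helper27.IP

variable {F : Type*} [Field F] {m : ℕ}

/-- K2-1: the data used by the algebra -/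
structure K21 (t v u S T r : F) : Prop where
  t0 : t ≠ 0
  v0 : v ≠ 0
  u0 : u ≠ 0
  S0 : S ≠ 0
  T0 : T ≠ 0
  r0 : r ≠ 0
  t1 : t - 1 ≠ 0
  v1 : v - 1 ≠ 0
  v1' : v + 1 ≠ 0
  u1 : u - 1 ≠ 0
  S1 : S - 1 ≠ 0
  T1 : T - 1 ≠ 0
  r1 : r - 1 ≠ 0
  Sv : S - v ≠ 0
  td : v + 1 - S ≠ 0
  tn : S * (v + 1) - v ≠ 0
  uS : u - S ≠ 0
  tv1 : t * v - 1 ≠ 0
  tvu : t * v - u ≠ 0
  tvS : t * v - S ≠ 0
  Stu : S * t - u ≠ 0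
  vt : v + t ≠ 0
  Sv2 : S + v ^ 2 ≠ 0
  w0 : u * t + v * S ≠ 0
  ell : v ^ 2 * (S * v + 1) - (u + v) * (v + 1 - S) ^ 2 ≠ 0
  emm : u * S * (S * v + 1) - (u + v) * (S * (v + 1) - v) ^ 2 ≠ 0
  mp : u ^ 2 * v ^ 2 * (v + 1 - S) - u * v * (v + 1 - S) * (S * (v + 1) - v)
      + (S * (v + 1) - v) * ((S * (v + 1) - v) * v - S) ≠ 0
  lp : S * (S * (v + 1) - v) - u * (S * (v + 1) - v) * (v + 1 - S)
      + u ^ 2 * (v + 1 - S) * ((v + 1 - S) - v ^ 2) ≠ 0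
  hST : S = v * T
  hr : T = t * r
  R : t * (v + 1 - S) = S * (v + 1) - v
  Ea : (v+1-S)*((S-v)^2-S)*u^2 + S*(S*(v+1)-v)*(v+1-S)*u - S*(S*(v+1)-v)*(2*S-v-1) = 0
  B2 : pB2 S v u = 0
  F41 : k2F t r S v u t r + k2F t r S v u (t ^ 2) (r ^ 2) + k2F t r S v u (t ^ 3) (r ^ 3) = 0

theorem k21_data (g : GForm F m) (hm : 5 ≤ m) (hD : g.G 1 1 ≠ g.H 1 1) (h2 : g.t 2 ≠ g.s 2)
    (hn1 : (g.s 2 * g.t 1 - g.t 2) * ((1 - g.lam' 0) - g.t 1 * g.mu' 0 + g.t 1 - 1) =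
        (g.s 2 - 1) * (g.t 1 * g.t 2 * (1 - g.lam' 0) - g.t 1 * g.mu' 0))
    (hn2 : (g.t 2 * g.s 1 - g.s 2) * ((1 - g.lam' 0) - g.t 1 * g.mu' 0 + g.t 1 - 1) =
        (g.t 2 - 1) * (g.s 1 * g.s 2 * (1 - g.lam' 0) - g.t 1 * g.mu' 0))
    (hk : g.kap 1 2 = 0) {v : F} (D : K2Data g v) (htd : v + 1 - g.s 2 ≠ 0)
    (hk2 : g.swap.kap 1 2 ≠ 0) (hk3 : g.swap.kap 1 3 ≠ 0)
    (h3 : g.t 3 * g.s 1 = g.s 2 * g.t 1) (hB2 : pB2 (g.s 2) v (g.s 1) = 0) :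
    ∃ r : F, K21 (g.t 1) v (g.s 1) (g.s 2) (g.t 2) r ∧ g.s 4 = g.s 1 * r ^ 3 ∧
      ((g.t 4 * g.s 1 ^ 2 = g.s 2 ^ 2 * g.t 1 ∧ pI (g.s 2) v (g.s 1) = 0) ∨
      (g.t 4 * g.s 1 = g.s 2 * g.t 2 ∧ pB3 (g.s 2) v (g.s 1) = 0)) := by
  have ht := g.t_ne 1 (by omega)
  have hT := g.t_ne 2 (by omega)
  have hu := g.s_ne 1 (by omega)
  have hS := g.s_ne 2 (by omega)
  have n01 : g.t 1 - 1 ≠ 0 := by
    rw [← g.t0]; exact sub_ne_zero.mpr (g.t_inj 0 1 (by omega) (by omega)).symm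
  have n02 : g.t 2 - 1 ≠ 0 := by
    rw [← g.t0]; exact sub_ne_zero.mpr (g.t_inj 0 2 (by omega) (by omega)).symm
  have n03 : g.t 3 - 1 ≠ 0 := by
    rw [← g.t0]; exact sub_ne_zero.mpr (g.t_inj 0 3 (by omega) (by omega)).symm
  have n12 : g.t 2 - g.t 1 ≠ 0 := sub_ne_zero.mpr (g.t_inj 1 2 (by omega) (by omega)).symm
  have m01 : g.s 1 - 1 ≠ 0 := by
    rw [← g.s0]; exact sub_ne_zero.mpr (g.s_inj 0 1 (by omega) (by omega)).symm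
  have m02 : g.s 2 - 1 ≠ 0 := by
    rw [← g.s0]; exact sub_ne_zero.mpr (g.s_inj 0 2 (by omega) (by omega)).symm
  have m03 : g.s 3 - 1 ≠ 0 := by
    rw [← g.s0]; exact sub_ne_zero.mpr (g.s_inj 0 3 (by omega) (by omega)).symm
  have m12 : g.s 1 - g.s 2 ≠ 0 := sub_ne_zero.mpr (g.s_inj 1 2 (by omega) (by omega))
  have m13 : g.s 3 - g.s 1 ≠ 0 := sub_ne_zero.mpr (g.s_inj 1 3 (by omega) (by omega)).symm
  have m23 : g.s 3 - g.s 2 ≠ 0 := sub_ne_zero.mpr (g.s_inj 2 3 (by omega) (by omega)).symm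
  rw [D.hs3] at m03 m13 m23
  obtain ⟨r, hr⟩ : ∃ r, g.t 2 = g.t 1 * r := ⟨g.t 2 / g.t 1, by field_simp⟩
  have hr0 : r ≠ 0 := by
    rintro rfl
    rw [mul_zero] at hr
    exact hT hr
  have hr1 : r - 1 ≠ 0 := by
    intro h
    apply n12
    rw [hr]
    linear_combination g.t 1 * h
  obtain ⟨hv1, hSv2, htn, hSv, hell, hemm⟩ :=
    k2_cell_ne g (by omega) hD h2 hn1 hn2 hk D.hS htd
  obtain ⟨hmp, hlp⟩ := k2_cell1_ne g (by omega) hD h2 hn1 hn2 hk D.hS htd h3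
  have hB2' := hB2
  rw [pB2, pP, pQ] at hB2'
  have hEa := k2_cell1 g (by omega) hD h2 hn1 hn2 hk D.hS htd h3 hB2'
  have hk4 : g.swap.kap 1 4 ≠ 0 := fun h => D.kap4_1 (by omega) h2 h3 h
  have h4 := D.step3_1 (by omega) hk2 hk3 hk4 h3
  obtain ⟨s4, F41⟩ := k2_F41 g hm hD hn1 hn2 hk D.hS hr
  have hStu : g.s 2 * g.t 1 - g.s 1 ≠ 0 := by
    intro h
    refine mul_ne_zero n03 hu ?_
    linear_combination h3 + h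
  exact ⟨r, ⟨ht, D.v0, hu, hS, hT, hr0, n01, hv1, D.v1, m01, m02, n02, hr1, hSv, htd, htn, m12,
    m03, m13, m23, hStu, D.hvt, hSv2, D.hw, hell, hemm, hmp, hlp, D.hS, hr, D.R, hEa,
    hB2, F41⟩, s4, h4⟩

/-- K2-1, letter 1 is dead -/
theorem K21.letter1 {t v u S T r : F} (K : K21 t v u S T r) (hB3 : pB3 S v u = 0) :
    u = -1 ∧ r = -1 :=
  k21_letter1 K.t0 K.v0 K.v1' K.S0 K.Sv K.td K.Stu K.ell K.mp K.R (by rw [← K.hr]; exact K.hST)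
    K.Ea K.B2 hB3

/-- K2-1, letter 0, `2, 3 ≠ 0` -/
theorem K21.letter0 {t v u S T r : F} (K : K21 t v u S T r) (h2 : (2 : F) ≠ 0) (h3 : (3 : F) ≠ 0)
    (hI : pI S v u = 0) : S = -v ∨ t ^ 2 * u * S = v ^ 2 :=
  k21_letter0_split h2 h3 K.t0 K.v0 K.u0 K.S0 K.T0 K.Sv K.td K.uS K.u1 K.t1 K.tv1 K.hST K.hr K.R
    K.Ea K.B2 hI K.F41

end Pool.Agent.Helper85.IP
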