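import Pool.Agent.Helper43.IPL.K21Char2
import Pool.Agent.Helper27.IP.N5Dead
import Pool.Agent.Helper82.IP.NDeadK2

/-!
TH-P: the leaf K2 for `m ≥ 6`, modulo the letter 0 of K2-1.
-/

namespace Pool.Agent.Helper85.IP

open Pool.Agent.Helper54.IP Pool.Agent.Helper36.IP Pool.Agent.Helper76.IP Pool.Agent.Helper27.IP
open Pool.Agent.Helper82.IP

variable {F : Type*} [Field F] {m : ℕ}

/-- the case `S = -v` of letter 0 (`2, 3 ≠ 0`) -/
def K21A (F : Type*) [Field F] : Prop :=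
  ∀ t v u S T r : F, K21 t v u S T r → (2 : F) ≠ 0 → (3 : F) ≠ 0 → u + S ≠ 0 → pI S v u = 0 →
    r ^ 3 - 1 ≠ 0 → u * r ^ 3 - 1 ≠ 0 → r ^ 4 - 1 ≠ 0 → u * r ^ 4 - 1 ≠ 0 →
    k2F t r S v u (t ^ 4) (r ^ 4) = 0 → S = -v → False

/-- the case `t^2 u S = v^2` of letter 0 (`2, 3 ≠ 0`) -/
def K21B (F : Type*) [Field F] : Prop :=
  ∀ t v u S T r : F, K21 t v u S T r → (2 : F) ≠ 0 → (3 : F) ≠ 0 → u + S ≠ 0 → pI S v u = 0 →
    r ^ 3 - 1 ≠ 0 → u * r ^ 3 - 1 ≠ 0 → r ^ 4 - 1 ≠ 0 → u * r ^ 4 - 1 ≠ 0 →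
    k2F t r S v u (t ^ 4) (r ^ 4) = 0 → t ^ 2 * u * S = v ^ 2 → False

theorem k2_leaf_of (hm : 6 ≤ m) (LA : K21A F) (LB : K21B F) : K2Leaf F m := by
  intro g hD h2 hn1 hn2 hk
  obtain ⟨v, D⟩ := k2_data g (by omega) hD hn1 hn2 hk
  have hk3 : g.swap.kap 1 3 ≠ 0 := n_kap3_dead g.swap (by omega) hD (hn_swap g (by omega) hn2)
  by_cases htd : v + 1 - g.s 2 = 0
  · exact kk_dead g (by omega) hD h2 hn1 hn2 hk (D.kap'_zero (by omega) htd)
  have hk2 := D.kap' (by omega) h2 htd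
  rcases D.step2 (by omega) hD hk2 hk3 with ⟨huv, h3⟩ | ⟨h3, hB⟩
  · exact Pool.Agent.Helper43.IPL.k20_dead g hm hD h2 hn1 hn2 hk D htd hk3 huv h3
  obtain ⟨r, K, s4, h4⟩ := k21_data g (by omega) hD h2 hn1 hn2 hk D htd hk2 hk3 h3 hB
  obtain ⟨-, s5, -, F54⟩ := k2_F g hm hD hn1 hn2 hk D.hS K.hr
  have ht := g.t_ne 1 (by omega)
  have hu := g.s_ne 1 (by omega)
  rcases h4 with ⟨h4, hI⟩ | ⟨h4, hB3⟩
  · have c2 : (2 : F) ≠ 0 := fun h => K.char2 h hI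
    have c3 : (3 : F) ≠ 0 := fun h => K.char3 h hI
    have e1 : g.s 1 + g.s 2 ≠ 0 := by
      intro h
      apply g.t_inj 1 4 (by omega) (by omega)
      apply mul_right_cancel₀ (pow_ne_zero 2 hu)
      rw [h4]
      linear_combination g.t 1 * (g.s 1 - g.s 2) * h
    have e2 : r ^ 3 - 1 ≠ 0 := by
      intro h
      apply g.s_inj 1 4 (by omega) (by omega)
      rw [s4]
      linear_combination -g.s 1 * h
    have e3 : g.s 1 * r ^ 3 - 1 ≠ 0 := by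
      intro h
      apply g.s_inj 0 4 (by omega) (by omega)
      rw [s4, g.s0]
      linear_combination -h
    have e4 : r ^ 4 - 1 ≠ 0 := by
      intro h
      apply g.s_inj 1 5 (by omega) (by omega)
      rw [s5]
      linear_combination -g.s 1 * h
    have e5 : g.s 1 * r ^ 4 - 1 ≠ 0 := by
      intro h
      apply g.s_inj 0 5 (by omega) (by omega)
      rw [s5, g.s0]
      linear_combination -h
    rcases K.letter0' hI with h | h
    · exact LA _ _ _ _ _ _ K c2 c3 e1 hI e2 e3 e4 e5 F54 h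
    · exact LB _ _ _ _ _ _ K c2 c3 e1 hI e2 e3 e4 e5 F54 h
  · obtain ⟨hu', hr'⟩ := K.letter1 hB3
    apply g.s_inj 0 4 (by omega) (by omega)
    rw [s4, g.s0, hu', hr']
    norm_num

end Pool.Agent.Helper85.IP
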