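import Pool.Agent.Helper85.IP.K21One

/-!
TH-P, K2-1, letter 0 (`t_4 = sigma^2 t_1`): small consequences of `R, Ea, B2, I`.
-/

namespace Pool.Agent.Helper85.IP

open Pool.Agent.Helper27.IP

private theorem sm_C1 {F : Type*} [CommRing F] {t v u S : F}
    (hR : S*(t+v+1)-(t*v+t+v) = 0)
    (ha : t*S^2-S*(S*(v+1)-v)*(1+u)-u^2*((S-v)^2-S) = 0)
    (hb : t*((S-v)^2-S*v^2)-u*v*(u*v-(S*(v+1)-v)*(1+u)) = 0) :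
    (v+1-S)*((S+t*v)*(u^2+t*S)-t*S*(1+u)*(1+u*v)) = 0 := by
  linear_combination
    (S + u*S + v*u*S - v*u^2 + v*u^2*S - t*v*S) * hR
    + (1) * ha
    + (-S) * hb

private theorem sm_C2 {F : Type*} [CommRing F] {t v u S : F}
    (hR : S*(t+v+1)-(t*v+t+v) = 0)
    (ha : t*S^2-S*(S*(v+1)-v)*(1+u)-u^2*((S-v)^2-S) = 0)
    (hb : t*((S-v)^2-S*v^2)-u*v*(u*v-(S*(v+1)-v)*(1+u)) = 0) :
    (v+1-S)*(u^2*(S^2-v*S+v^2*S-t*v^2)-t*S^2*u+t*S*(v+t*v-S)) = 0 := by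
  linear_combination
    (S^2 + u*S^2 - v*S + v^2*u^2 - t*v*S) * hR
    + (S - v) * ha
    + (-S) * hb

private theorem sm_C3 {F : Type*} [CommRing F] {t v u S : F}
    (hR : S*(t+v+1)-(t*v+t+v) = 0)
    (ha : t*S^2-S*(S*(v+1)-v)*(1+u)-u^2*((S-v)^2-S) = 0)
    (hb : t*((S-v)^2-S*v^2)-u*v*(u*v-(S*(v+1)-v)*(1+u)) = 0) :
    (v+1-S)*(v*(u^2-t)*(S+t)-(u*v-t)*(u*v+t*S)) = 0 := by
  linear_combination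
    (v*S - v*u + v*u*S - v*u^2 - t*S + t*v) * hR
    + (v) * ha
    + (1) * hb

private theorem sm_C4 {F : Type*} [CommRing F] {t v u S : F}
    (hR : S*(t+v+1)-(t*v+t+v) = 0)
    (ha : t*S^2-S*(S*(v+1)-v)*(1+u)-u^2*((S-v)^2-S) = 0)
    (hb : t*((S-v)^2-S*v^2)-u*v*(u*v-(S*(v+1)-v)*(1+u)) = 0) :
    (v+1-S)*(u^2*v*(S+t*S-t*v)-t*v^2*u+t*(t*v^2-t*v*S+t*S-S^2)) = 0 := by
  linear_combination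
    (v*S - v*u^2*S + v^2*u + v^2*u^2 - t*S + t*v*S - t*v^2) * hR
    + (v) * ha
    + (S - v) * hb

private theorem sm_F1 {F : Type*} [CommRing F] {t v u S : F}
    (hR : S*(t+v+1)-(t*v+t+v) = 0)
    (h1 : (S+t*v)*(u^2+t*S)-t*S*(1+u)*(1+u*v) = 0)
    (h2 : u^2*(S^2-v*S+v^2*S-t*v^2)-t*S^2*u+t*S*(v+t*v-S) = 0)
    (hE : (S^2*v+u*(S^2+S*v^2-S*v-S-v^2))*(S-u^2)-S*(S-1)*(S-v)*(v+t) = 0) :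
    t*S*(u-S)*(u^2*(v*S-t*S+t*v)+u*v*(S^2-S-t-t^2)+t*S*(S-v+t)) = 0 := by
  linear_combination
    (u^3*S^2 - u^5*S^2 - v*u^2*S^2 - 2*v*u^3*S^2 - v*u^4*S^2 + v*u^5*S + v^2*u^2*S^2 +
      v^2*u^3*S^2 - v^2*u^5*S - t*u*S^4 - 2*t*u^2*S^2 - 2*t*u^2*S^3 - t*u^3*S + 4*t*u^3*S^2 -
      2*t*u^3*S^3 + t*u^4*S^2 - t*u^5*S + t*u^5*S^2 - t*v*S^3 + 3*t*v*u*S^2 - t*v*u*S^3 +
      t*v*u^2*S^2 + t*v*u^2*S^3 - t*v*u^3*S + 2*t*v*u^3*S^2 + t*v*u^3*S^3 - t*v*u^4*S +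
      2*t*v*u^4*S^2 - t*v*u^5*S + t*v^2*S - t*v^2*S^2 + t*v^2*u*S - t*v^2*u*S^2 - t*v^2*u^2*S -
      t*v^2*u^3 + t*v^2*u^3*S - t*v^2*u^3*S^2 + t*v^2*u^5*S + t^2*S^2 + 3*t^2*u*S^3 - t^2*u^2*S^2
      + 2*t^2*u^2*S^3 + t^2*v*S + 2*t^2*v*u*S - t^2*v*u*S^2 - t^2*v*u*S^3 - t^2*v*u^2*S -
      2*t^2*v*u^2*S^2 + t^2*v*u^3*S - t^2*v^2*S + t^2*v^2*u^2*S - t^3*S^3 - t^3*v*S + t^3*v*u*S -
      t^3*v*u*S^2 - t^3*v*u^2*S) * hR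
    + (-u^3*S + v*u*S + v*u*S^3 + 2*v*u^2*S^2 - v^2*u*S - v^2*u^2*S + t*S^3 + t*u*S^2 + t*u*S^3 +
      2*t*u^2*S^2 - t*u^3*S + t*v*S^2 + t*v*u - 2*t*v*u*S - t*v*u^2 - 2*t*v*u^2*S + t*v*u^3 -
      t*v^2 + t*v^2*u^2 - t^2*S - t^2*v + t^2*v*u - t^2*v*u*S - t^2*v*u^2) * h1
    + (-u*S^2 + 2*u^3*S + t*S + t*S^2 + t*u - 3*t*u*S + t*u*S^2 - t*u^2 - t*u^2*S + t*u^3*S - t*v
      + t*v*S + t*v*u - 2*t*v*u*S + t*v*u*S^2 + t*v*u^2 - t*v*u^2*S - t*v*u^3*S - t^2 + t^2*S +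
      t^2*u - 2*t^2*u*S + t^2*u*S^2 - t^2*u^2 + t^2*u^2*S) * h2
    + (u^2*S - v*u^2*S + t*S^2 + t*u^2*S - t*v + t*v*S - t^2 - t^2*S + t^2*u*S - t^2*u^2 +
      t^2*u^2*S - t^3*S) * hE

private theorem sm_D1 {F : Type*} [CommRing F] {t v u S : F}
    (hR : S*(t+v+1)-(t*v+t+v) = 0)
    (h1 : (S+t*v)*(u^2+t*S)-t*S*(1+u)*(1+u*v) = 0)
    (h2 : u^2*(S^2-v*S+v^2*S-t*v^2)-t*S^2*u+t*S*(v+t*v-S) = 0)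
    (h3 : v*(u^2-t)*(S+t)-(u*v-t)*(u*v+t*S) = 0)
    (hF : u^2*(v*S-t*S+t*v)+u*v*(S^2-S-t-t^2)+t*S*(S-v+t) = 0) :
    u*((S-v)*(u-1))*(u*(v*S^2-v^2*S-t*v+t^2-t^2*S+t^2*v*S)+(v*S-v^2*S+v^2*S^2-t*v*S^2-t^2*S+t^2*v)) = 0 := by
  linear_combination
    (-u^2*S^2 + u^3*S^2 - v*u*S + 2*v*u^2*S - 2*v*u^3*S + v^2*u*S - v^2*u^2*S + 2*t*S^2 -
      t*u*S^2 + t*u^2*S - t*u^2*S^2 - t*u^3*S - 2*t*v*S + t*v*u*S - t*v*u^2 + t*v*u^2*S + t*v*u^3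
      + 2*t*v*u^3*S + 3*t*v^2*u^2 - 4*t*v^2*u^3) * hR
    + (-S + 2*u*S + v - 2*v*u + v*u*S - 2*t*S + t*u*S + 3*t*v - 4*t*v*u) * h1
    + (1 + S - 2*u - u*S - 2*v + v*S + 2*v*u + t*S - t*u*S - 2*t*v + 4*t*v*u) * h2
    + (-t*S + t*v*S + t*v*u) * h3
    + (-u*S - v*S + 2*v*u + v*u*S - v^2*u + t*S - t*v) * hF

/-- K2-1, letter 0 (`t_4 = sigma^2 t_1`): the small relations -/
theorem k21_small {F : Type*} [Field F] {t v u S : F} (ht : t ≠ 0) (hv : v ≠ 0) (hu : u ≠ 0)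
    (hS : S ≠ 0) (hSv : S - v ≠ 0) (htd : v + 1 - S ≠ 0) (huS : u - S ≠ 0) (hu1 : u - 1 ≠ 0)
    (R : t * (v + 1 - S) = S * (v + 1) - v)
    (hEa : (v+1-S)*((S-v)^2-S)*u^2 + S*(S*(v+1)-v)*(v+1-S)*u - S*(S*(v+1)-v)*(2*S-v-1) = 0)
    (hB2 : pB2 S v u = 0) (hI : pI S v u = 0) :
    S*(t+v+1)-(t*v+t+v) = 0 ∧
    (S+t*v)*(u^2+t*S)-t*S*(1+u)*(1+u*v) = 0 ∧
    u^2*(S^2-v*S+v^2*S-t*v^2)-t*S^2*u+t*S*(v+t*v-S) = 0 ∧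
    v*(u^2-t)*(S+t)-(u*v-t)*(u*v+t*S) = 0 ∧
    u^2*v*(S+t*S-t*v)-t*v^2*u+t*(t*v^2-t*v*S+t*S-S^2) = 0 ∧
    u^2*(v*S-t*S+t*v)+u*v*(S^2-S-t-t^2)+t*S*(S-v+t) = 0 ∧
    u*(v*S^2-v^2*S-t*v+t^2-t^2*S+t^2*v*S)+(v*S-v^2*S+v^2*S^2-t*v*S^2-t^2*S+t^2*v) = 0 := by
  have hEb := k21_Eb hEa hB2
  have hR : S*(t+v+1)-(t*v+t+v) = 0 := by linear_combination -R
  have ha : t*S^2-S*(S*(v+1)-v)*(1+u)-u^2*((S-v)^2-S) = 0 := by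
    apply mul_left_cancel₀ htd
    linear_combination -hEa + S^2 * R
  have hb : t*((S-v)^2-S*v^2)-u*v*(u*v-(S*(v+1)-v)*(1+u)) = 0 := by
    apply mul_left_cancel₀ htd
    linear_combination -hEb + ((S-v)^2-S*v^2) * R
  have h1 := (mul_eq_zero.1 (sm_C1 hR ha hb)).resolve_left htd
  have h2 := (mul_eq_zero.1 (sm_C2 hR ha hb)).resolve_left htd
  have h3 := (mul_eq_zero.1 (sm_C3 hR ha hb)).resolve_left htd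
  have h4 := (mul_eq_zero.1 (sm_C4 hR ha hb)).resolve_left htd
  rw [pB2, pP, pQ] at hB2
  rw [pI, pP, pQ] at hI
  have hE : (S^2*v+u*(S^2+S*v^2-S*v-S-v^2))*(S-u^2)-S*(S-1)*(S-v)*(v+t) = 0 := by
    apply mul_left_cancel₀ hu
    apply mul_left_cancel₀ htd
    linear_combination (-S) * hB2 - hI + (-(u*S*(S-1)*(S-v))) * R
  have hF := (mul_eq_zero.1 (sm_F1 hR h1 h2 hE)).resolve_left
    (mul_ne_zero (mul_ne_zero ht hS) huS)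
  have hD := (mul_eq_zero.1 (sm_D1 hR h1 h2 h3 hF)).resolve_left
    (mul_ne_zero hu (mul_ne_zero hSv hu1))
  exact ⟨hR, h1, h2, h3, h4, hF, hD⟩

end Pool.Agent.Helper85.IP
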