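import Pool.Agent.Helper85.IP.K21Small

/-!
TH-P, K2-1, letter 0: the two certificates (`G2` is the row relation `F41`).
-/

namespace Pool.Agent.Helper85.IP

/-- certificate B: `e3` does not vanish -/
theorem k21_cB {F : Type*} [CommRing F] {t v u S : F}
    (hR : S*(t+v+1)-(t*v+t+v) = 0)
    (h1 : (S+t*v)*(u^2+t*S)-t*S*(1+u)*(1+u*v) = 0)
    (h2 : u^2*(S^2-v*S+v^2*S-t*v^2)-t*S^2*u+t*S*(v+t*v-S) = 0)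
    (h3 : v*(u^2-t)*(S+t)-(u*v-t)*(u*v+t*S) = 0)
    (hF : u^2*(v*S-t*S+t*v)+u*v*(S^2-S-t-t^2)+t*S*(S-v+t) = 0)
    (hD : u*(v*S^2-v^2*S-t*v+t^2-t^2*S+t^2*v*S)+(v*S-v^2*S+v^2*S^2-t*v*S^2-t^2*S+t^2*v) = 0)
    (he : 1 - S + u - u*S + u^2*S - u^2*S^2 + v*u - v*u^2*S - v*u^2*S^2 + v^2*u^2*S^2 - t*S^2 - t*u -
      t*u*S + t*u*S^2 + t*u^2 + t*v + t*v*S^2 + t*v*u^2 - t*v*u^2*S^2 - t*v^2*S - t*v^2*u -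
      t*v^2*u*S - t*v^2*u*S^2 + t*v^2*u^2*S^2 - t^2*u*S + t^2*v*S + t^2*v^2 + t^2*v^2*u^2*S = 0) :
    324*(t*v^4*u^4*S^2*((t-1)*(t*v-1))) = 0 := by
  linear_combination
    (108*(t*v*u*S)*(S^2 - u*S^2 - v*S + v*S^2 - v*u + t*S - t*u*S - t*u*S^2 - t*u^2*S^2 - t*v - t*v*u*S^2 +
      t*v*u^2*S + t*v^2*S - t*v^2*u^2*S - t^2*S^2 + t^2*v*S^2 - t^2*v*u*S + t^2*v*u*S^2 + t^2*v^2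
      - t^2*v^2*S)) * he
    - ((-144*u^2*S^3 - 252*u^3*S^3 - 108*u^4*S^3 + 72*v*u^2*S^3 + 360*v*u^3*S^2 - 4872*v*u^3*S^3 +
      36*v*u^4*S^2 - 816*v*u^4*S^3 + 36*v^2*u^2*S - 216*v^2*u^2*S^3 + 252*v^2*u^3*S +
      912*v^2*u^3*S^2 + 3384*v^2*u^3*S^3 - 2976*v^2*u^3*S^4 - 312*v^2*u^4*S + 2114*v^2*u^4*S^2 -
      2846*v^2*u^4*S^3 - 108*v^2*u^5*S^3 - 36*v^3*u^2*S - 36*v^3*u^2*S^2 - 144*v^3*u^3*S -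
      1572*v^3*u^3*S^2 - 3084*v^3*u^3*S^3 + 276*v^3*u^4*S - 1298*v^3*u^4*S^2 - 108*v^4*u^3*S^3 +
      144*t*S^3 + 396*t*u*S^3 + 360*t*u^2*S^3 + 516*t*u^3*S^3 + 2304*t*u^4*S^3 - 2598*t*u^5*S^3 -
      72*t*v*S^3 - 108*t*v*u*S^2 + 4728*t*v*u*S^3 - 288*t*v*u^2*S^2 + 6336*t*v*u^2*S^3 -
      144*t*v*u^3*S^2 + 4030*t*v*u^3*S^3 - 108*t*v*u^3*S^4 - 108*t*v*u^4*S^2 + 4564*t*v*u^4*S^3 +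
      108*t*v*u^4*S^4 + 4146*t*v*u^5*S^3 - 36*t*v^2*S - 36*t*v^2*S^2 - 144*t*v^2*u*S -
      1572*t*v^2*u*S^2 - 2976*t*v^2*u*S^3 + 312*t*v^2*u^2*S - 1526*t*v^2*u^2*S^2 -
      430*t*v^2*u^2*S^3 + 72*t*v^2*u^3*S - 3954*t*v^2*u^3*S^2 + 4078*t*v^2*u^3*S^3 -
      1390*t*v^2*u^3*S^4 - 220*t*v^2*u^4*S - 5330*t*v^2*u^4*S^2 + 5922*t*v^2*u^4*S^3 -
      108*t*v^2*u^4*S^4 + 4998*t*v^2*u^5*S^2 + 8006*t*v^2*u^5*S^3 - 99*t*v^2*u^6*S^2 +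
      432*t*v^2*u^6*S^3 + 108*t*v^3*u*S^3 + 36*t*v^3*u^2 - 36*t*v^3*u^2*S + 5426*t*v^3*u^2*S^3 +
      144*t*v^3*u^3 + 1704*t*v^3*u^3*S + 2386*t*v^3*u^3*S^2 - 862*t*v^3*u^3*S^3 +
      108*t*v^3*u^3*S^4 - 276*t*v^3*u^4 + 1626*t*v^3*u^4*S + 2874*t*v^3*u^4*S^2 +
      168*t*v^3*u^4*S^3 - 5106*t*v^3*u^5*S^2 - 36*t*v^3*u^5*S^3 + 99*t*v^3*u^6*S^2 -
      216*t*v^3*u^6*S^3 + 108*t*v^4*u^2*S^3 - 216*t*v^4*u^3*S^2 - 358*t*v^4*u^3*S^3 -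
      2472*t*v^4*u^4*S^2 + 8240*t*v^4*u^5*S^2 - 108*t*v^5*u^5*S^2 - 300*t^2*u*S^3 -
      2604*t^2*u^2*S^3 + 786*t^2*u^3*S^3 + 7716*t^2*u^4*S^3 + 2712*t^2*u^4*S^4 - 306*t^2*u^6*S^3
      + 4118*t^2*v*u*S^3 - 108*t^2*v*u*S^4 + 408*t^2*v*u^2*S^2 - 920*t^2*v*u^2*S^3 +
      216*t^2*v*u^2*S^4 + 2388*t^2*v*u^3*S^2 - 9720*t^2*v*u^3*S^3 + 114*t^2*v*u^4*S^2 -
      8800*t^2*v*u^4*S^3 + 2217*t^2*v*u^4*S^4 - 2904*t^2*v*u^5*S^2 + 1081*t^2*v*u^5*S^3 -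
      2811*t^2*v*u^6*S^3 - 108*t^2*v^2*S - 36*t^2*v^2*S^2 - 180*t^2*v^2*S^3 + 60*t^2*v^2*u*S -
      1658*t^2*v^2*u*S^2 - 13006*t^2*v^2*u*S^3 + 108*t^2*v^2*u*S^4 + 496*t^2*v^2*u^2*S +
      3564*t^2*v^2*u^2*S^2 - 15632*t^2*v^2*u^2*S^3 - 518*t^2*v^2*u^2*S^4 - 224*t^2*v^2*u^3*S -
      9094*t^2*v^2*u^3*S^2 - 6265*t^2*v^2*u^3*S^3 + 2659*t^2*v^2*u^3*S^4 - 216*t^2*v^2*u^3*S^5 -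
      1238*t^2*v^2*u^4*S - 4635*t^2*v^2*u^4*S^2 - 6495*t^2*v^2*u^4*S^3 + 3298*t^2*v^2*u^4*S^4 -
      1188*t^2*v^2*u^4*S^5 - 1044*t^2*v^2*u^5*S + 17722*t^2*v^2*u^5*S^2 - 8007*t^2*v^2*u^5*S^3 -
      360*t^2*v^2*u^5*S^4 - 432*t^2*v^2*u^6*S^2 + 297*t^2*v^2*u^6*S^3 - 216*t^2*v^2*u^6*S^4 +
      3442*t^2*v^3*u*S^3 + 72*t^2*v^3*u^2 - 72*t^2*v^3*u^2*S + 4762*t^2*v^3*u^2*S^2 -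
      2026*t^2*v^3*u^2*S^3 + 5600*t^2*v^3*u^2*S^4 - 132*t^2*v^3*u^3 + 158*t^2*v^3*u^3*S +
      657*t^2*v^3*u^3*S^2 + 1791*t^2*v^3*u^3*S^3 + 2254*t^2*v^3*u^3*S^4 + 216*t^2*v^3*u^3*S^5 -
      328*t^2*v^3*u^4 - 6878*t^2*v^3*u^4*S + 7675*t^2*v^3*u^4*S^2 + 2963*t^2*v^3*u^4*S^3 +
      882*t^2*v^3*u^4*S^4 + 216*t^2*v^3*u^4*S^5 + 5448*t^2*v^3*u^5*S - 2553*t^2*v^3*u^5*S^2 +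
      909*t^2*v^3*u^5*S^3 - 432*t^2*v^3*u^5*S^4 - 99*t^2*v^3*u^6*S - 2190*t^2*v^3*u^6*S^2 +
      108*t^2*v^4*u^2*S^2 + 3442*t^2*v^4*u^2*S^3 - 108*t^2*v^4*u^3*S + 252*t^2*v^4*u^3*S^2 +
      4870*t^2*v^4*u^3*S^3 + 756*t^2*v^4*u^3*S^4 - 7708*t^2*v^4*u^4*S^2 + 1656*t^2*v^4*u^4*S^3 -
      1512*t^2*v^4*u^4*S^4 - 8546*t^2*v^4*u^5*S^2 + 126*t^2*v^4*u^5*S^3 + 324*t^2*v^5*u^3*S^3 -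
      216*t^2*v^5*u^3*S^4 - 108*t^2*v^5*u^4*S^3 + 216*t^2*v^5*u^4*S^4 + 108*t^2*v^5*u^5*S^2 -
      432*t^2*v^5*u^5*S^3 - 600*t^3*u*S^3 - 5418*t^3*u^2*S^3 - 2406*t^3*u^3*S^3 + 612*t^3*u^4*S^3
      + 306*t^3*u^5*S^3 + 36*t^3*v*S^3 + 5924*t^3*v*u*S^3 + 108*t^3*v*u*S^4 + 300*t^3*v*u^2*S^2 +
      4574*t^3*v*u^2*S^3 - 108*t^3*v*u^2*S^4 + 2370*t^3*v*u^3*S^2 - 3159*t^3*v*u^3*S^3 +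
      3298*t^3*v*u^4*S^2 - 874*t^3*v*u^4*S^3 - 306*t^3*v*u^5*S^2 + 297*t^3*v*u^5*S^3 -
      306*t^3*v*u^6*S^2 - 108*t^3*v^2*S + 36*t^3*v^2*S^2 - 360*t^3*v^2*S^3 + 372*t^3*v^2*u*S +
      4740*t^3*v^2*u*S^2 - 10942*t^3*v^2*u*S^3 - 216*t^3*v^2*u*S^4 + 1718*t^3*v^2*u^2*S +
      5508*t^3*v^2*u^2*S^2 + 10965*t^3*v^2*u^2*S^3 - 3280*t^3*v^2*u^2*S^4 + 972*t^3*v^2*u^2*S^5 +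
      3702*t^3*v^2*u^3*S - 19056*t^3*v^2*u^3*S^2 + 14255*t^3*v^2*u^3*S^3 - 2488*t^3*v^2*u^3*S^4 +
      972*t^3*v^2*u^3*S^5 + 1044*t^3*v^2*u^4*S - 31029*t^3*v^2*u^4*S^2 + 5487*t^3*v^2*u^4*S^3 -
      90*t^3*v^2*u^4*S^4 + 648*t^3*v^2*u^4*S^5 - 3621*t^3*v^2*u^5*S + 8665*t^3*v^2*u^5*S^2 -
      3234*t^3*v^2*u^5*S^3 + 972*t^3*v^2*u^5*S^4 - 216*t^3*v^2*u^5*S^5 + 243*t^3*v^2*u^6*S^2 -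
      126*t^3*v^2*u^6*S^3 + 216*t^3*v^2*u^6*S^4 + 3410*t^3*v^3*u*S^2 - 1338*t^3*v^3*u*S^3 +
      72*t^3*v^3*u^2 + 3062*t^3*v^3*u^2*S - 5685*t^3*v^3*u^2*S^2 + 6718*t^3*v^3*u^2*S^3 -
      432*t^3*v^3*u^2*S^5 - 264*t^3*v^3*u^3 - 7307*t^3*v^3*u^3*S + 6665*t^3*v^3*u^3*S^2 -
      657*t^3*v^3*u^3*S^3 + 1170*t^3*v^3*u^3*S^4 - 216*t^3*v^3*u^3*S^5 - 1418*t^3*v^3*u^4 -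
      5590*t^3*v^3*u^4*S - 2901*t^3*v^3*u^4*S^2 - 1008*t^3*v^3*u^4*S^3 + 972*t^3*v^3*u^4*S^4 -
      1044*t^3*v^3*u^5 + 11064*t^3*v^3*u^5*S - 1313*t^3*v^3*u^5*S^2 - 342*t^3*v^3*u^5*S^3 +
      324*t^3*v^3*u^5*S^4 - 234*t^3*v^3*u^6*S + 2730*t^3*v^3*u^6*S^2 + 108*t^3*v^4*u^2*S +
      4770*t^3*v^4*u^2*S^2 - 1080*t^3*v^4*u^2*S^3 + 1256*t^3*v^4*u^3*S - 504*t^3*v^4*u^3*S^2 +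
      432*t^3*v^4*u^3*S^4 - 126*t^3*v^4*u^4*S^2 + 216*t^3*v^4*u^4*S^3 + 864*t^3*v^4*u^4*S^4 +
      108*t^3*v^4*u^5*S^3 - 216*t^3*v^4*u^5*S^4 + 216*t^3*v^5*u^2*S^3 + 324*t^3*v^5*u^3*S^2 -
      216*t^3*v^5*u^3*S^3 + 216*t^3*v^5*u^4*S^2 + 306*t^4*v*u^2*S^3 - 405*t^4*v*u^3*S^3 -
      198*t^4*v*u^4*S^3 - 36*t^4*v^2*S + 36*t^4*v^2*S^2 + 384*t^4*v^2*u*S - 420*t^4*v^2*u*S^2 -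
      108*t^4*v^2*u*S^3 + 420*t^4*v^2*u^2*S + 17977*t^4*v^2*u^2*S^2 - 11648*t^4*v^2*u^2*S^3 +
      666*t^4*v^2*u^2*S^4 - 648*t^4*v^2*u^2*S^5 + 3621*t^4*v^2*u^3*S + 5674*t^4*v^2*u^3*S^2 -
      4276*t^4*v^2*u^3*S^3 - 198*t^4*v^2*u^3*S^4 - 432*t^4*v^2*u^3*S^5 + 3621*t^4*v^2*u^4*S -
      4989*t^4*v^2*u^4*S^2 + 972*t^4*v^2*u^4*S^3 - 972*t^4*v^2*u^4*S^4 + 216*t^4*v^2*u^4*S^5 -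
      36*t^4*v^2*u^5*S^2 + 126*t^4*v^2*u^5*S^3 - 216*t^4*v^2*u^5*S^4 + 108*t^4*v^3*u*S -
      324*t^4*v^3*u*S^2 + 108*t^4*v^3*u*S^3 + 36*t^4*v^3*u^2 + 108*t^4*v^3*u^2*S^2 +
      3712*t^4*v^3*u^2*S^3 - 1512*t^4*v^3*u^2*S^4 - 420*t^4*v^3*u^3 - 783*t^4*v^3*u^3*S^2 +
      90*t^4*v^3*u^3*S^3 - 648*t^4*v^3*u^3*S^4 - 14356*t^4*v^3*u^4*S + 5086*t^4*v^3*u^4*S^2 -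
      972*t^4*v^3*u^4*S^3 + 108*t^4*v^3*u^4*S^4 - 3621*t^4*v^3*u^5 + 4656*t^4*v^3*u^5*S -
      828*t^4*v^3*u^5*S^2 - 108*t^4*v^3*u^5*S^3 + 234*t^4*v^3*u^6*S - 126*t^4*v^3*u^6*S^2 -
      108*t^4*v^4*u*S + 108*t^4*v^4*u*S^2 - 108*t^4*v^4*u^3*S^2 + 108*t^4*v^4*u^3*S^3 -
      216*t^5*v^2*u^3*S^3 + 108*t^5*v^2*u^3*S^4 - 558*t^5*v^3*u^2*S^3 + 648*t^5*v^3*u^2*S^4 +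
      756*t^5*v^3*u^3*S^3 - 216*t^5*v^3*u^3*S^4 + 216*t^5*v^3*u^4*S^3) * hR
    + (252*u^2*S^2 - 108*v*u*S - 36*v*u*S^2 - 216*v*u^2*S - 312*v*u^2*S^2 + 108*v^2*S^2 +
      108*v^2*u - 72*v^2*u*S - 252*v^2*u*S^2 + 2976*v^2*u*S^3 - 36*v^2*u^2 + 600*v^2*u^2*S -
      276*v^2*u^2*S^2 + 8348*v^2*u^3*S^3 - 108*v^3*u*S^2 - 3622*v^3*u^2*S^2 - 8326*v^3*u^3*S^2 -
      108*v^4*u*S^2 - 2688*v^4*u^2*S^2 + 8348*v^4*u^3*S^2 - 108*v^5*u^3*S^2 - 144*t*S^2 -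
      252*t*u*S^2 - 216*t*u^2*S^2 + 72*t*v*S^2 - 4548*t*v*u*S^2 - 900*t*v*u^2*S^2 + 36*t*v^2 +
      36*t*v^2*S + 72*t*v^2*S^2 + 324*t*v^2*u + 1356*t*v^2*u*S + 3132*t*v^2*u*S^2 -
      4090*t*v^2*u*S^3 - 456*t*v^2*u^2 + 2558*t*v^2*u^2*S + 2346*t*v^2*u^2*S^2 -
      4962*t*v^2*u^2*S^3 - 108*t*v^2*u^3*S^2 - 1328*t*v^2*u^3*S^3 + 162*t*v^2*u^3*S^4 +
      81*t*v^2*u^4*S^3 - 216*t*v^2*u^4*S^4 + 180*t*v^3*S^2 + 7990*t*v^3*u*S^2 -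
      6786*t*v^3*u^2*S^2 - 6812*t*v^3*u^3*S^2 - 81*t*v^3*u^4*S^2 - 3442*t*v^4*u*S^2 -
      1688*t*v^4*u^2*S^2 - 198*t*v^4*u^3*S^2 - 108*t*v^5*u^2*S^2 + 300*t^2*u*S^2 +
      2412*t^2*u^2*S^2 - 2712*t^2*u^2*S^3 - 2598*t^2*u^3*S^2 - 2712*t^2*u^3*S^3 -
      2712*t^2*u^4*S^3 - 144*t^2*v*S^2 - 6614*t^2*v*u*S^2 + 5428*t^2*v*u^2*S^2 -
      1864*t^2*v*u^2*S^3 + 10068*t^2*v*u^3*S^2 - 4713*t^2*v*u^3*S^3 + 2712*t^2*v*u^4*S^2 -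
      2217*t^2*v*u^4*S^3 + 108*t^2*v^2 + 72*t^2*v^2*S + 144*t^2*v^2*S^2 - 168*t^2*v^2*u +
      1442*t^2*v^2*u*S + 6158*t^2*v^2*u*S^2 + 8314*t^2*v^2*u*S^3 + 54*t^2*v^2*u*S^4 -
      148*t^2*v^2*u^2 - 678*t^2*v^2*u^2*S - 2925*t^2*v^2*u^2*S^2 + 6013*t^2*v^2*u^2*S^3 +
      486*t^2*v^2*u^2*S^4 + 5308*t^2*v^2*u^3*S - 3872*t^2*v^2*u^3*S^2 - 2631*t^2*v^2*u^3*S^3 +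
      756*t^2*v^2*u^3*S^4 - 99*t^2*v^2*u^4*S + 3288*t^2*v^2*u^4*S^2 - 126*t^2*v^2*u^4*S^3 +
      216*t^2*v^2*u^4*S^4 + 180*t^2*v^3*S^2 + 216*t^2*v^3*u + 2546*t^2*v^3*u*S +
      6876*t^2*v^3*u*S^2 + 4942*t^2*v^3*u*S^3 - 240*t^2*v^3*u^2 + 2177*t^2*v^3*u^2*S -
      11855*t^2*v^3*u^2*S^2 - 2128*t^2*v^3*u^2*S^3 + 756*t^2*v^3*u^2*S^4 - 616*t^2*v^3*u^3 +
      5888*t^2*v^3*u^3*S - 7016*t^2*v^3*u^3*S^2 - 504*t^2*v^3*u^3*S^3 + 108*t^2*v^3*u^3*S^4 -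
      2955*t^2*v^3*u^4*S + 126*t^2*v^3*u^4*S^2 - 108*t^2*v^4*u + 216*t^2*v^4*u*S +
      1436*t^2*v^4*u^2*S - 432*t^2*v^4*u^2*S^2 - 648*t^2*v^4*u^2*S^3 + 216*t^2*v^4*u^2*S^4 -
      108*t^2*v^4*u^3*S^2 + 216*t^2*v^5*u^2*S^2 + 300*t^3*u*S^2 + 2406*t^3*u^2*S^2 -
      306*t^3*u^3*S^2 - 306*t^3*u^4*S^2 - 36*t^3*v*S^2 - 9216*t^3*v*u*S^2 + 682*t^3*v*u^2*S^2 +
      3379*t^3*v*u^3*S^2 + 9*t^3*v*u^4*S^2 + 108*t^3*v^2 + 36*t^3*v^2*S + 180*t^3*v^2*S^2 -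
      444*t^3*v^2*u - 4784*t^3*v^2*u*S + 1620*t^3*v^2*u*S^2 - 1418*t^3*v^2*u^2 -
      4406*t^3*v^2*u^2*S + 2097*t^3*v^2*u^2*S^2 - 1044*t^3*v^2*u^3 + 14685*t^3*v^2*u^3*S -
      3203*t^3*v^2*u^3*S^2 - 234*t^3*v^2*u^4*S + 2604*t^3*v^2*u^4*S^2 + 3262*t^3*v^3*u^2*S^2 -
      414*t^3*v^3*u^2*S^3 + 216*t^3*v^3*u^2*S^4 - 18*t^3*v^3*u^3*S^2 - 972*t^3*v^3*u^3*S^3 -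
      216*t^3*v^3*u^4*S^3 - 207*t^4*v*u^2*S^2 + 198*t^4*v*u^3*S^2 + 36*t^4*v^2 - 420*t^4*v^2*u -
      14356*t^4*v^2*u^2*S + 5716*t^4*v^2*u^2*S^2 - 3621*t^4*v^2*u^3 + 4656*t^4*v^2*u^3*S -
      612*t^4*v^2*u^3*S^2 + 234*t^4*v^2*u^4*S - 126*t^4*v^2*u^4*S^2 - 558*t^4*v^3*u^2*S^2 +
      648*t^4*v^3*u^2*S^3 + 648*t^4*v^3*u^3*S^2 - 216*t^4*v^3*u^3*S^3 + 216*t^4*v^3*u^4*S^2) * h1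
    + (144*S^2 + 252*u*S^2 - 252*u^2*S + 108*u^2*S^2 + 72*v*S^2 + 108*v*u - 432*v*u*S +
      5232*v*u*S^2 - 36*v*u^2 + 384*v*u^2*S + 924*v*u^2*S^2 - 36*v^2 + 36*v^2*S^2 - 144*v^2*u -
      1428*v^2*u*S - 1188*v^2*u*S^2 + 2976*v^2*u*S^3 + 276*v^2*u^2 - 1574*v^2*u^2*S +
      3662*v^2*u^2*S^2 - 8240*v^2*u^3*S^2 - 108*v^3*u^2*S^2 + 108*v^3*u^3*S^2 - 156*t*u*S^2 -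
      2196*t*u^2*S^2 + 2598*t*u^3*S^2 + 1358*t*v*u*S^2 - 6160*t*v*u^2*S^2 - 1548*t*v*u^3*S^2 -
      108*t*v^2 + 36*t*v^2*S - 108*t*v^2*S^2 - 12*t*v^2*u - 1754*t*v^2*u*S - 280*t*v^2*u*S^2 -
      4090*t*v^2*u*S^3 + 604*t*v^2*u^2 + 6694*t*v^2*u^2*S + 622*t*v^2*u^2*S^2 + 108*t*v^2*u^2*S^3
      - 5020*t*v^2*u^3*S - 10716*t*v^2*u^3*S^2 - 162*t*v^2*u^3*S^3 + 99*t*v^2*u^4*S -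
      513*t*v^2*u^4*S^2 + 216*t*v^2*u^4*S^3 - 2580*t*v^3*u*S^2 + 7558*t*v^3*u^2*S^2 +
      216*t*v^3*u^3*S^2 - 108*t*v^4*u^2*S^2 - 900*t^2*u*S^2 - 4710*t^2*u^2*S^2 - 2712*t^2*u^2*S^3
      + 5310*t^2*u^3*S^2 + 3018*t^2*u^4*S^2 - 108*t^2*v*S^2 + 16*t^2*v*u*S^2 - 2642*t^2*v*u^2*S^2
      - 4929*t^2*v*u^2*S^3 - 622*t^2*v*u^3*S^2 + 108*t^2*v*u^3*S^3 + 5334*t^2*v*u^4*S^2 -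
      144*t^2*v^2 + 36*t^2*v^2*S - 360*t^2*v^2*S^2 + 480*t^2*v^2*u + 5310*t^2*v^2*u*S -
      8896*t^2*v^2*u*S^2 + 3070*t^2*v^2*u*S^3 + 54*t^2*v^2*u*S^4 + 1638*t^2*v^2*u^2 +
      17905*t^2*v^2*u^2*S - 1311*t^2*v^2*u^2*S^2 - 5650*t^2*v^2*u^2*S^3 + 1404*t^2*v^2*u^2*S^4 +
      428*t^2*v^2*u^3 - 7396*t^2*v^2*u^3*S + 1425*t^2*v^2*u^3*S^2 - 288*t^2*v^2*u^3*S^3 -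
      2622*t^2*v^2*u^4*S + 2208*t^2*v^2*u^4*S^2 - 180*t^2*v^3*S^2 - 108*t^2*v^3*u +
      432*t^2*v^3*u*S - 4340*t^2*v^3*u*S^2 - 5266*t^2*v^3*u*S^3 + 180*t^2*v^3*u^2*S +
      6668*t^2*v^3*u^2*S^2 - 2106*t^2*v^3*u^2*S^3 + 1080*t^2*v^3*u^2*S^4 + 8240*t^2*v^3*u^3*S^2 +
      630*t^2*v^3*u^3*S^3 - 108*t^2*v^4*u^2*S^2 + 324*t^2*v^4*u^2*S^3 - 216*t^2*v^4*u^2*S^4 -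
      324*t^2*v^4*u^3*S^2 + 432*t^2*v^4*u^3*S^3 - 300*t^3*u*S^2 - 2712*t^3*u^2*S^2 +
      306*t^3*u^4*S^2 - 3400*t^3*v*u*S^2 + 878*t^3*v*u^2*S^2 - 3991*t^3*v*u^3*S^2 +
      99*t^3*v*u^4*S^2 - 108*t^3*v^2 - 180*t^3*v^2*S^2 + 552*t^3*v^2*u + 3932*t^3*v^2*u*S -
      1404*t^3*v^2*u*S^2 + 1418*t^3*v^2*u^2 + 20955*t^3*v^2*u^2*S - 5100*t^3*v^2*u^2*S^2 -
      3586*t^3*v^2*u^2*S^3 + 324*t^3*v^2*u^2*S^4 + 4665*t^3*v^2*u^3 - 15720*t^3*v^2*u^3*S +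
      3068*t^3*v^2*u^3*S^2 - 396*t^3*v^2*u^3*S^3 + 216*t^3*v^2*u^3*S^4 - 2604*t^3*v^2*u^4*S^2 -
      864*t^3*v^3*u^2*S^4 + 216*t^3*v^3*u^3*S^4 - 9*t^4*v*u^2*S^2 - 198*t^4*v*u^3*S^2 -
      36*t^4*v^2 + 420*t^4*v^2*u + 14356*t^4*v^2*u^2*S - 6274*t^4*v^2*u^2*S^2 +
      1314*t^4*v^2*u^2*S^3 - 648*t^4*v^2*u^2*S^4 + 3621*t^4*v^2*u^3 - 4656*t^4*v^2*u^3*S +
      1476*t^4*v^2*u^3*S^2 - 972*t^4*v^2*u^3*S^3 + 216*t^4*v^2*u^3*S^4 - 234*t^4*v^2*u^4*S +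
      342*t^4*v^2*u^4*S^2 - 216*t^4*v^2*u^4*S^3) * h2
    + (-216*t^4*v^2*u^3*S^2 + 324*t^4*v^2*u^3*S^3 - 108*t^4*v^2*u^3*S^4) * h3
    + (-108*u^2*S^2 + 108*v*u*S^2 + 108*v*u^2*S - 300*v*u^2*S^2 + 216*v^2*u*S^2 + 192*v^2*u^2*S +
      2676*v^2*u^2*S^2 + 2976*v^2*u^2*S^3 - 22*v^2*u^3*S^2 + 216*v^3*u^2*S^2 + 108*v^4*u^2*S^2 +
      108*t*u^2*S^2 - 2640*t*v*u*S^2 - 6306*t*v*u^2*S^2 + 4254*t*v^2*u*S^2 + 180*t*v^2*u^2 -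
      292*t*v^2*u^2*S + 6446*t*v^2*u^2*S^2 + 1282*t*v^2*u^2*S^3 - 2698*t*v^2*u^3*S^2 -
      3084*t*v^3*u*S^2 + 846*t*v^3*u^2*S^2 - 168*t*v^3*u^3*S^2 + 198*t*v^3*u^4*S^2 -
      108*t*v^4*u*S^2 + 466*t*v^4*u^2*S^2 - 300*t^2*u*S^2 - 2712*t^2*u^2*S^2 - 306*t^2*u^3*S^2 -
      3028*t^2*v*u*S^2 - 5010*t^2*v*u^2*S^2 - 3065*t^2*v*u^2*S^3 - 3936*t^2*v*u^3*S^2 -
      198*t^2*v*u^4*S^2 + 36*t^2*v^2*u + 124*t^2*v^2*u*S + 11140*t^2*v^2*u*S^2 -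
      5190*t^2*v^2*u*S^3 - 180*t^2*v^2*u^2 - 2678*t^2*v^2*u^2*S + 6308*t^2*v^2*u^2*S^2 -
      4147*t^2*v^2*u^2*S^3 + 1184*t^2*v^2*u^3*S - 381*t^2*v^2*u^3*S^2 - 2668*t^2*v^2*u^3*S^3 -
      108*t^2*v^2*u^3*S^4 - 99*t^2*v^2*u^4*S^2 - 3410*t^2*v^3*u*S + 2196*t^2*v^3*u*S^2 -
      10046*t^2*v^3*u*S^3 + 132*t^2*v^3*u^2 + 1395*t^2*v^3*u^2*S + 2279*t^2*v^3*u^2*S^2 -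
      2956*t^2*v^3*u^2*S^3 - 216*t^2*v^3*u^2*S^4 - 1009*t^2*v^3*u^3*S + 3609*t^2*v^3*u^3*S^2 +
      90*t^2*v^3*u^3*S^3 - 99*t^2*v^3*u^4*S^2 - 3334*t^2*v^4*u*S^2 - 1256*t^2*v^4*u^2*S +
      396*t^2*v^4*u^2*S^2 - 540*t^2*v^4*u^2*S^3 - 90*t^2*v^4*u^3*S^2 - 324*t^2*v^5*u^2*S^2 +
      216*t^2*v^5*u^2*S^3 - 216*t^2*v^5*u^3*S^2 + 405*t^3*v*u^2*S^2 - 108*t^3*v*u^3*S^2 +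
      12928*t^3*v^2*u*S^2 + 3621*t^3*v^2*u^2*S + 3558*t^3*v^2*u^2*S^2 + 504*t^3*v^2*u^3*S^2 +
      891*t^3*v^3*u^2*S^2 - 414*t^3*v^3*u^2*S^3 + 630*t^3*v^3*u^3*S^2 + 216*t^4*v^2*u^2*S^2 -
      108*t^4*v^3*u^2*S^3) * hF
    + (130*t*v^2*u^2*S^2 - 3776*t*v^2*u^3*S^2 - 642*t^2*v*u^2*S^2 + 586*t^2*v*u^3*S^2 +
      1660*t^2*v^2*u^2*S - 2714*t^2*v^2*u^2*S^2 + 4338*t^2*v^2*u^2*S^3 - 3254*t^2*v^2*u^3*S^2) * hD)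

end Pool.Agent.Helper85.IP
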