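import Pool.Agent.Helper85.IP.K21CertA
import Pool.Agent.Helper85.IP.K21CertB
import Pool.Agent.Helper43.IPL.K20Alg

/-!
TH-P, K2-1, letter 0 (`t_4 = sigma^2 t_1`): if `2, 3 ≠ 0` then `F41 = 0` forces `S = -v` or
`t^2 u S = v^2`.
-/

namespace Pool.Agent.Helper85.IP

open Pool.Agent.Helper27.IP Pool.Agent.Helper76.IP Pool.Agent.Helper43.IPL

/-- `F41 = 0` in the form used by the certificates -/
theorem k21_G {F : Type*} [Field F] {t T S v u : F} (hT : T ≠ 0) (htd : v + 1 - S ≠ 0)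
    (hST : S = v * T) (R : t * (v + 1 - S) = S * (v + 1) - v)
    (hE : k20E t T S v u (T ^ 3) = 0) :
    (1+t+t^2)*v^3*S^2*((u*t+v*S)*(t^3-u*v)-u*(t+v-S-v^2)*(t+1)*(t^2+1))+(v^2*t^2+v*t*S+S^2)*(S^2*(u*t*(u*t+v*S)-u^2*(t+1)*(t+v-S-v^2))-v^4*t^2*(v*(u*t+v*S)+(t+1)*(t+v-S-v^2))) = 0 := by
  subst hST
  rw [k20E] at hE
  apply mul_left_cancel₀ (pow_ne_zero 3 hT)
  apply mul_left_cancel₀ htd
  linear_combination (v ^ 5 * T ^ 2) * hE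
    + (v^4*T^3*(-u^2*T^4 - v*u*T^2 - v*u^2*T^4 + v*u^2*T^5 + v^2*u*T^3 + v^2*u^2*T^4 + v^3*u*T^2 -
      v^3*u*T^3 - t*u^2*T^3 - t*v*u*T^2 - t*v*u^2*T^3 + t*v*u^2*T^4 + t*v^2*u*T^3 + t*v^2*u^2*T^3
      + t*v^3*u*T^2 - t*v^3*u*T^3 - t^2*u^2*T^2 - t^2*v*u*T^2 - t^2*v*u^2*T^2 + t^2*v*u^2*T^3 -
      t^2*v^2*T^2 + t^2*v^2*u*T^3 + t^2*v^2*u^2*T^2 + t^2*v^3*T^3 + t^2*v^3*u*T^2 - t^2*v^3*u*T^3
      + t^2*v^4*T^2 - t^2*v^4*T^3 - t^3*v^2*T - t^3*v^2*T^2 + t^3*v^3*T^2 + t^3*v^4*T -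
      t^3*v^4*T^2 - t^4*v^2 - t^4*v^2*T + t^4*v^3*T + t^4*v^4 - t^4*v^4*T - t^5*v^2)) * R

/-- K2-1, letter 0, `2, 3 ≠ 0` -/
theorem k21_letter0_split {F : Type*} [Field F] {t v u S T r : F} (h2 : (2 : F) ≠ 0)
    (h3 : (3 : F) ≠ 0) (ht : t ≠ 0) (hv : v ≠ 0) (hu : u ≠ 0)
    (hS : S ≠ 0) (hT : T ≠ 0) (hSv : S - v ≠ 0) (htd : v + 1 - S ≠ 0) (huS : u - S ≠ 0)
    (hu1 : u - 1 ≠ 0) (ht1 : t - 1 ≠ 0) (htv : t * v - 1 ≠ 0)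
    (hST : S = v * T) (hr : T = t * r)
    (R : t * (v + 1 - S) = S * (v + 1) - v)
    (hEa : (v+1-S)*((S-v)^2-S)*u^2 + S*(S*(v+1)-v)*(v+1-S)*u - S*(S*(v+1)-v)*(2*S-v-1) = 0)
    (hB2 : pB2 S v u = 0) (hI : pI S v u = 0)
    (hF : k2F t r S v u t r + k2F t r S v u (t ^ 2) (r ^ 2) + k2F t r S v u (t ^ 3) (r ^ 3) = 0) :
    S = -v ∨ t ^ 2 * u * S = v ^ 2 := by
  obtain ⟨hR, h1, h2', h3', h4, hF1, hD1⟩ := k21_small ht hv hu hS hSv htd huS hu1 R hEa hB2 hI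
  have hG := k21_G hT htd hST R (k20_E ht hT hr R ht1 hF)
  have hA := k21_cA hR h1 h2' h3' hF1 hD1 hG
  have h18 : (18 : F) ≠ 0 := by
    have e : (18 : F) = 2 * 3 ^ 2 := by norm_num
    rw [e]
    exact mul_ne_zero h2 (pow_ne_zero 2 h3)
  have h324 : (324 : F) ≠ 0 := by
    have e : (324 : F) = 2 ^ 2 * 3 ^ 4 := by norm_num
    rw [e]
    exact mul_ne_zero (pow_ne_zero 2 h2) (pow_ne_zero 4 h3)
  have hA' := (mul_eq_zero.1 ((mul_eq_zero.1 hA).resolve_left h18)).resolve_left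
    (mul_ne_zero (mul_ne_zero (pow_ne_zero 2 ht) hv) hS)
  rcases mul_eq_zero.1 hA' with h | h
  · rcases mul_eq_zero.1 h with h | h
    · left
      linear_combination h
    · right
      linear_combination h
  · exfalso
    have hB := k21_cB hR h1 h2' h3' hF1 hD1 h
    have hB' := (mul_eq_zero.1 ((mul_eq_zero.1 hB).resolve_left h324)).resolve_left
      (mul_ne_zero (mul_ne_zero (mul_ne_zero ht (pow_ne_zero 4 hv)) (pow_ne_zero 4 hu))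
        (pow_ne_zero 2 hS))
    exact mul_ne_zero ht1 htv hB'

end Pool.Agent.Helper85.IP
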