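import Pool.Agent.Helper85.IP.K21CaseA
import Pool.Agent.Helper43.IPL.K21B

/-!
TH-P: the leaf K2 and the elimination theorem for `m ≥ 6` (`n ≥ 7`), without hypotheses.
-/

namespace Pool.Agent.Helper85.IP

open Pool.Agent.Helper54.IP Pool.Agent.Helper82.IP

variable {F : Type*} [Field F] {m : ℕ}

/-- `kap_1^(2) = 0`, `t_2 ≠ s_2` is impossible for `m ≥ 6` -/
theorem k2_leaf (hm : 6 ≤ m) : K2Leaf F m := k2_leaf_of hm (k21A F) Pool.Agent.Helper43.IPL.k21_B

/-- the elimination theorem for `m ≥ 6` -/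
theorem elim7 (g : GForm F m) (hm : 6 ≤ m) :
    ∀ i, i + 1 < m → g.t i = g.t 1 ^ i ∧ g.s i = g.t 1 ^ i := elim_K2 (k2_leaf hm) g hm

end Pool.Agent.Helper85.IP
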