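import Pool.Agent.Helper85.IP.K2LeafOf

/-!
TH-P, K2-1, letter 0, the case `S = -v`: `257 = 0` and an explicit point.
-/

namespace Pool.Agent.Helper85.IP

open Pool.Agent.Helper76.IP Pool.Agent.Helper27.IP Pool.Agent.Helper43.IPL

private theorem cA_E1 {F : Type*} [CommRing F] {t v u : F}
    (hR : -2*v - v^2 - t - 2*t*v = 0)
    (h1 : -u^2 + t + t*u + t*u^2 + t*v + t*v*u + t*v*u^2 - t^2*v = 0)
    (h2 : 2*u^2 - v*u^2 - 2*t - t*u - t*u^2 - t^2 = 0) :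
    2*(t*u*(1 - u - v - v*u + t + t*u + t*v - t*v*u)) = 0 := by
  linear_combination
    (-u^2 + 2*t + 3*t*u + t*u^2 + t*v*u^2 + t^2 + t^2*u + 2*t^2*u^2) * hR
    + (4 - 2*u + 4*u^2 + 2*v + v*u - 2*v*u^2 + 2*t - t*u - 2*t*u^2 + t*v) * h1
    + (2 - u + 2*u^2 + v - t - t*u - 2*t*u^2 - 4*t*v - t*v*u - 2*t*v*u^2 - t*v^2) * h2

private theorem cA_E2 {F : Type*} [CommRing F] {t v u : F}
    (hR : -2*v - v^2 - t - 2*t*v = 0)
    (h1 : -u^2 + t + t*u + t*u^2 + t*v + t*v*u + t*v*u^2 - t^2*v = 0)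
    (h2 : 2*u^2 - v*u^2 - 2*t - t*u - t*u^2 - t^2 = 0) :
    2*(t*u*(1 + 2*v + 2*v*u + 2*t + 2*t*u + t*v*u)) = 0 := by
  linear_combination
    (-u^2 + 2*t + t*u - t*u^2 + t*v*u^2 + t^2 + 3*t^2*u + 2*t^2*u^2) * hR
    + (4 + 2*u + 4*u^2 + 2*v - v*u - 2*v*u^2 + 2*t - 3*t*u - 2*t*u^2 + t*v) * h1
    + (2 + u + 2*u^2 + v - t - 3*t*u - 2*t*u^2 - 4*t*v - 3*t*v*u - 2*t*v*u^2 - t*v^2) * h2

private theorem cA_257 {F : Type*} [CommRing F] {t v u : F}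
    (hR : -2*v - v^2 - t - 2*t*v = 0)
    (e1 : 1 - u - v - v*u + t + t*u + t*v - t*v*u = 0)
    (e2 : 1 + 2*v + 2*v*u + 2*t + 2*t*u + t*v*u = 0)
    (hF : v*u - v*u^2 + v^2*u - t*u + 2*t*u^2 + 2*t*v - t^2 - t^2*u = 0) :
    12*(t*v*u*(257)) = 0 := by
  linear_combination
    (-990 + 429*u + 974*u^2 - 602*u^3 + 235*v*u - 112*v*u^2 - 1602*t - 1416*t*u + 1292*t*u^2 -
      574*t*u^3 + 1456*t*v + 4256*t*v*u + 2800*t*v*u^2 - 728*t^2 - 896*t^2*u - 168*t^2*u^2 -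
      1456*t^2*v + 448*t^2*v*u + 1904*t^2*v*u^2) * hR
    + (-990*v - 657*v*u + 994*v*u^2 - 431*t - 1022*t*u + 1022*t*u^2 - 2184*t*v - 2063*t*v*u +
      280*t*v*u^2 - 1456*t*v^2 - 1008*t*v^2*u - 2912*t^2*v - 2016*t^2*v*u) * e1
    + (-990*v + 472*v*u + 140*v*u^2 - 559*t + 1073*t*u - 966*t*u^2 + 551*t*v + 513*t*v*u +
      280*t*v*u^2 + 896*t*v^2*u + 1792*t^2*v*u) * e2
    + (53 + 210*u + 235*v - 112*v*u + 728*t + 168*t*u) * hF

private theorem cA_t {F : Type*} [CommRing F] {t v u : F}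
    (hR : -2*v - v^2 - t - 2*t*v = 0)
    (e1 : 1 - u - v - v*u + t + t*u + t*v - t*v*u = 0)
    (e2 : 1 + 2*v + 2*v*u + 2*t + 2*t*u + t*v*u = 0)
    (hF : v*u - v*u^2 + v^2*u - t*u + 2*t*u^2 + 2*t*v - t^2 - t^2*u = 0) :
    4*(t*v*u*(-22 + 118*v + t)) = 0 := by
  linear_combination
    (375 - 131*u - 249*u^2 + 84*u^3 - 229*v*u - 89*v*u^2 + 895*t + 438*t*u - 636*t*u^2 +
      28*t*u^3 - 588*t*v - 1614*t*v*u - 1026*t*v*u^2 + 294*t^2 + 519*t^2*u + 225*t^2*u^2 +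
      588*t^2*v - 146*t^2*v*u - 734*t^2*v*u^2) * hR
    + (375*v + 367*v*u - 201*v*u^2 - 5*t + 166*t*u - 18*t*u^2 + 882*t*v + 615*t*v*u - 70*t*v*u^2 +
      588*t*v^2 + 442*t*v^2*u + 1176*t^2*v + 884*t^2*v*u) * e1
    + (375*v - 114*v*u - 103*v*u^2 + 380*t - 442*t*u + 248*t*u^2 + 48*t*v - 416*t*v*u - 70*t*v*u^2
      - 292*t*v^2*u - 584*t^2*v*u) * e2
    + (-140 + 33*u - 229*v - 89*v*u - 294*t - 225*t*u) * hF

private theorem cA_u {F : Type*} [CommRing F] {t v u : F}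
    (hR : -2*v - v^2 - t - 2*t*v = 0)
    (e1 : 1 - u - v - v*u + t + t*u + t*v - t*v*u = 0)
    (e2 : 1 + 2*v + 2*v*u + 2*t + 2*t*u + t*v*u = 0)
    (hF : v*u - v*u^2 + v^2*u - t*u + 2*t*u^2 + 2*t*v - t^2 - t^2*u = 0) :
    12*(t*v*u*(-128 + u + 19*v)) = 0 := by
  linear_combination
    (657 - 270*u - 590*u^2 + 332*u^3 - 223*v*u + 13*v*u^2 + 1200*t + 894*t*u - 929*t*u^2 +
      292*t*u^3 - 982*t*v - 2822*t*v*u - 1840*t*v*u^2 + 491*t^2 + 677*t^2*u + 186*t^2*u^2 +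
      982*t^2*v - 286*t^2*v*u - 1268*t^2*v*u^2) * hR
    + (657*v + 492*v*u - 577*v*u^2 + 206*t + 572*t*u - 506*t*u^2 + 1473*t*v + 1286*t*v*u -
      169*t*v*u^2 + 982*t*v^2 + 696*t*v^2*u + 1964*t^2*v + 1392*t^2*v*u) * e1
    + (657*v - 283*v*u - 116*v*u^2 + 451*t - 728*t*u + 585*t*u^2 - 242*t*v - 447*t*v*u -
      169*t*v*u^2 - 572*t*v^2*u - 1144*t^2*v*u) * e2
    + (-92 - 87*u - 223*v + 13*v*u - 491*t - 186*t*u) * hF

/-- the explicit point of the case `S = -v` -/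
theorem K21.caseA {F : Type*} [Field F] {t v u S T r : F} (K : K21 t v u S T r) (c2 : (2 : F) ≠ 0)
    (c3 : (3 : F) ≠ 0) (hI : pI S v u = 0) (hS : S = -v) :
    (257 : F) = 0 ∧ v ^ 2 = 50 * v - 1 ∧ t = 22 - 118 * v ∧ u = 128 - 19 * v ∧ T = -1 ∧
      t * r = -1 := by
  obtain ⟨hR', h1', h2', -, -, hF', -⟩ :=
    k21_small K.t0 K.v0 K.u0 K.S0 K.Sv K.td K.uS K.u1 K.R K.Ea K.B2 hI
  have hT : T = -1 := by
    apply mul_left_cancel₀ K.v0
    linear_combination hS - K.hST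
  rw [hS] at hR' h1' h2' hF'
  have hR : -2*v - v^2 - t - 2*t*v = 0 := by linear_combination hR'
  have h1 : -u^2 + t + t*u + t*u^2 + t*v + t*v*u + t*v*u^2 - t^2*v = 0 := by
    apply mul_left_cancel₀ K.v0
    linear_combination h1'
  have h2 : 2*u^2 - v*u^2 - 2*t - t*u - t*u^2 - t^2 = 0 := by
    apply mul_left_cancel₀ (pow_ne_zero 2 K.v0)
    linear_combination h2'
  have hF : v*u - v*u^2 + v^2*u - t*u + 2*t*u^2 + 2*t*v - t^2 - t^2*u = 0 := by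
    apply mul_left_cancel₀ K.v0
    linear_combination hF'
  have tu : t * u ≠ 0 := mul_ne_zero K.t0 K.u0
  have tvu : t * v * u ≠ 0 := mul_ne_zero (mul_ne_zero K.t0 K.v0) K.u0
  have c4 : (4 : F) ≠ 0 := by
    have e : (4 : F) = 2 ^ 2 := by norm_num
    rw [e]
    exact pow_ne_zero 2 c2
  have c12 : (12 : F) ≠ 0 := by
    have e : (12 : F) = 2 ^ 2 * 3 := by norm_num
    rw [e]
    exact mul_ne_zero (pow_ne_zero 2 c2) c3
  have e1 := (mul_eq_zero.1 ((mul_eq_zero.1 (cA_E1 hR h1 h2)).resolve_left c2)).resolve_left tu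
  have e2 := (mul_eq_zero.1 ((mul_eq_zero.1 (cA_E2 hR h1 h2)).resolve_left c2)).resolve_left tu
  have hp := (mul_eq_zero.1 ((mul_eq_zero.1 (cA_257 hR e1 e2 hF)).resolve_left c12)).resolve_left tvu
  have ht := (mul_eq_zero.1 ((mul_eq_zero.1 (cA_t hR e1 e2 hF)).resolve_left c4)).resolve_left tvu
  have hu := (mul_eq_zero.1 ((mul_eq_zero.1 (cA_u hR e1 e2 hF)).resolve_left c12)).resolve_left tvu
  have ht' : t = 22 - 118 * v := by linear_combination ht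
  have hu' : u = 128 - 19 * v := by linear_combination hu
  refine ⟨hp, ?_, ht', hu', hT, by rw [← K.hr, hT]⟩
  rw [ht'] at hR
  linear_combination (35) * hR + (3 + (-10)*v + (-32)*v^2) * hp

/-- the case `S = -v` is impossible for `m ≥ 6` -/
theorem k21A (F : Type*) [Field F] : K21A F := by
  intro t v u S T r K c2 c3 _ hI _ _ _ _ hF hS
  obtain ⟨hp, hv, ht, hu, hT, htr⟩ := K.caseA c2 c3 hI hS
  have ht0 := K.t0
  have hr : r = -1 / t := by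
    rw [eq_div_iff ht0, mul_comm]
    exact htr
  have e : t ^ 3 * k2F t r S v u (t ^ 4) (r ^ 4) =
      2*v*u^2 + 2*v^2*u^2 - v^3*u^2 - 2*t*v*u - t*v*u^2 - 2*t*v^2*u + 5*t*v^3*u + t*v^3*u^2 +
      2*t*v^4*u + t^2*v*u - t^2*v*u^2 + 2*t^2*v^2*u - 2*t^2*v^2*u^2 + 2*t^7*v^2 - t^7*v^2*u -
      2*t^7*v^3*u - 2*t^7*v^4 - t^8*u - 4*t^8*v*u - 2*t^8*v^2 - 2*t^8*v^2*u + 4*t^8*v^3*u +
      2*t^8*v^4 := by
    rw [k2F, hr, hS]
    field_simp
    ring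
  rw [hF, mul_zero] at e
  rw [ht, hu] at e
  have e' : 219 + 178 * v = 0 := by
    linear_combination -e - ((-223915016807424687368717952798094148) + (-4480093090773723771175316008757343)*v + (-89637731261501194555362249872114)*v^2 + (-1793472301335917219624774661597)*v^3 + (-35883805294849101259568839018)*v^4 + (-717963406246932440949103616)*v^5 + (-14365016303540218486359040)*v^6 + (-287415511820923579940736)*v^7 + (-5750850304823285601920)*v^8 + (-114266771382066320384)*v^9 + (-2781555809976257024)*v^10) * (hv) - (871264656838228355520275987106153 + (-43545800573075722352779953227461019) * v) * hp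
  have : (1 : F) = 0 := by
    linear_combination (79) * (219 + 50 * 178 - 178 * v) * e' + (2503036) * hv - (623622) * hp
  exact one_ne_zero this

end Pool.Agent.Helper85.IP
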