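import Pool.Agent.Helper85.IP.K21Small

/-!
TH-P, K2-1, letter 0: the two certificates (`G2` is the row relation `F41`).
-/

namespace Pool.Agent.Helper85.IP

/-- certificate A: `3 F41` is a multiple of `(S + v) (t^2 u S - v^2) e3` -/
theorem k21_cA {F : Type*} [CommRing F] {t v u S : F}
    (hR : S*(t+v+1)-(t*v+t+v) = 0)
    (h1 : (S+t*v)*(u^2+t*S)-t*S*(1+u)*(1+u*v) = 0)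
    (h2 : u^2*(S^2-v*S+v^2*S-t*v^2)-t*S^2*u+t*S*(v+t*v-S) = 0)
    (h3 : v*(u^2-t)*(S+t)-(u*v-t)*(u*v+t*S) = 0)
    (hF : u^2*(v*S-t*S+t*v)+u*v*(S^2-S-t-t^2)+t*S*(S-v+t) = 0)
    (hD : u*(v*S^2-v^2*S-t*v+t^2-t^2*S+t^2*v*S)+(v*S-v^2*S+v^2*S^2-t*v*S^2-t^2*S+t^2*v) = 0)
    (hG : (1+t+t^2)*v^3*S^2*((u*t+v*S)*(t^3-u*v)-u*(t+v-S-v^2)*(t+1)*(t^2+1))+(v^2*t^2+v*t*S+S^2)*(S^2*(u*t*(u*t+v*S)-u^2*(t+1)*(t+v-S-v^2))-v^4*t^2*(v*(u*t+v*S)+(t+1)*(t+v-S-v^2))) = 0) :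
    18*(t^2*v*S*((S+v)*(t^2*u*S-v^2)*(1 - S + u - u*S + u^2*S - u^2*S^2 + v*u - v*u^2*S - v*u^2*S^2 + v^2*u^2*S^2 - t*S^2 - t*u -
      t*u*S + t*u*S^2 + t*u^2 + t*v + t*v*S^2 + t*v*u^2 - t*v*u^2*S^2 - t*v^2*S - t*v^2*u -
      t*v^2*u*S - t*v^2*u*S^2 + t*v^2*u^2*S^2 - t^2*u*S + t^2*v*S + t^2*v^2 + t^2*v^2*u^2*S))) = 0 := by
  linear_combination
    (54*(u)) * hG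
    - ((54*u^3*S^4 + 162*v*u^2*S^2 - 54*v*u^3*S^4 + 2138*v^2*u^2*S^2 - 2259*v^2*u^3*S^2 +
      54*v^2*u^3*S^4 - 988*v^3*u^2*S - 934*v^3*u^2*S^2 + 1312*v^3*u^2*S^3 + 1026*v^3*u^3*S +
      2198*v^3*u^3*S^2 - 108*v^3*u^3*S^3 + 1069*v^4*u^2*S + 934*v^4*u^2*S^2 - 1026*v^4*u^3*S -
      551*v^4*u^3*S^2 + 54*v^4*u^3*S^3 - 81*t*u^3*S^2 - 162*t*v*S^2 - 162*t*v*u*S^2 -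
      81*t*v*u^2*S^2 + 54*t*v*u^2*S^4 - 1429*t*v*u^3*S^2 + 54*t*v*u^3*S^4 - 2057*t*v^2*S^2 -
      81*t*v^2*u*S + 121*t*v^2*u*S^2 + 162*t*v^2*u^2*S + 2233*t*v^2*u^2*S^2 + 54*t*v^2*u^2*S^3 -
      54*t*v^2*u^2*S^4 + 81*t*v^2*u^3*S + 211*t*v^2*u^3*S^2 + 108*t*v^2*u^3*S^3 -
      108*t*v^2*u^3*S^4 + 1069*t*v^3*S + 1150*t*v^3*S^2 - 1107*t*v^3*u*S - 1048*t*v^3*u*S^2 -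
      655*t*v^3*u*S^3 + 389*t*v^3*u*S^4 - 1518*t*v^3*u^2*S + 1624*t*v^3*u^2*S^2 -
      2694*t*v^3*u^2*S^3 + 368*t*v^3*u^2*S^4 + 1536*t*v^3*u^3*S + 1895*t*v^3*u^3*S^2 +
      87*t*v^3*u^3*S^3 - 1828*t*v^4*u*S^2 - 634*t*v^4*u*S^3 - 1069*t*v^4*u^2 + 1194*t*v^4*u^2*S +
      318*t*v^4*u^2*S^2 + 368*t*v^4*u^2*S^3 + 1107*t*v^4*u^3 - 292*t*v^4*u^3*S -
      414*t*v^4*u^3*S^2 - 108*t*v^4*u^3*S^3 + 324*t*v^5*u*S^2 - 925*t*v^5*u^2*S^2 +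
      907*t*v^5*u^3*S - 162*t*v^6*u^3*S + 81*t^2*u*S^2 + 162*t^2*u^2*S^2 - 162*t^2*v*S^2 +
      1348*t^2*v*u*S^2 - 81*t^2*v*u^2*S + 2525*t^2*v*u^2*S^2 + 18*t^2*v*u^2*S^3 -
      54*t^2*v*u^2*S^4 - 1467*t^2*v*u^3*S^2 - 18*t^2*v*u^3*S^3 - 18*t^2*v*u^3*S^4 -
      3181*t^2*v^2*S^2 - 162*t^2*v^2*u*S + 143*t^2*v^2*u*S^2 + 1332*t^2*v^2*u*S^3 -
      1051*t^2*v^2*u^2*S + 1897*t^2*v^2*u^2*S^2 - 216*t^2*v^2*u^2*S^3 + 108*t^2*v^2*u^2*S^4 -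
      135*t^2*v^2*u^3*S + 1860*t^2*v^2*u^3*S^2 - 72*t^2*v^2*u^3*S^3 - 18*t^2*v^2*u^3*S^4 +
      3800*t^2*v^3*S + 2303*t^2*v^3*S^2 + 1401*t^2*v^3*S^3 - 1993*t^2*v^3*u*S -
      3071*t^2*v^3*u*S^2 + 3099*t^2*v^3*u*S^3 + 112*t^2*v^3*u*S^4 - 2544*t^2*v^3*u^2*S -
      4456*t^2*v^3*u^2*S^2 - 142*t^2*v^3*u^2*S^3 + 588*t^2*v^3*u^2*S^4 - 425*t^2*v^3*u^3*S -
      1881*t^2*v^3*u^3*S^2 - 1527*t^2*v^3*u^3*S^3 + 756*t^2*v^3*u^3*S^4 - 202*t^2*v^4*S^2 -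
      1422*t^2*v^4*S^3 - 1211*t^2*v^4*u*S + 243*t^2*v^4*u*S^2 - 1990*t^2*v^4*u*S^3 -
      456*t^2*v^4*u*S^4 - 2668*t^2*v^4*u^2 + 3702*t^2*v^4*u^2*S + 343*t^2*v^4*u^2*S^2 -
      1888*t^2*v^4*u^2*S^3 - 162*t^2*v^4*u^2*S^4 + 3174*t^2*v^4*u^3 + 1480*t^2*v^4*u^3*S -
      952*t^2*v^4*u^3*S^2 - 18*t^2*v^4*u^3*S^3 - 198*t^2*v^4*u^3*S^4 + 162*t^2*v^5*S^2 +
      162*t^2*v^5*u*S - 198*t^2*v^5*u*S^2 - 324*t^2*v^5*u*S^3 + 90*t^2*v^5*u*S^4 -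
      1670*t^2*v^5*u^2*S - 444*t^2*v^5*u^2*S^2 + 1476*t^2*v^5*u^2*S^3 + 90*t^2*v^5*u^2*S^4 +
      162*t^2*v^5*u^3 + 535*t^2*v^5*u^3*S - 714*t^2*v^5*u^3*S^2 + 990*t^2*v^5*u^3*S^3 +
      54*t^2*v^6*u*S^2 + 180*t^2*v^6*u*S^3 + 36*t^2*v^6*u*S^4 - 162*t^2*v^6*u^2*S^2 -
      324*t^2*v^6*u^2*S^3 - 108*t^2*v^6*u^3 + 108*t^2*v^6*u^3*S + 486*t^2*v^6*u^3*S^2 -
      198*t^2*v^6*u^3*S^3 + 108*t^2*v^7*u^2*S^2 + 54*t^2*v^7*u^3 - 54*t^2*v^7*u^3*S -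
      54*t^2*v^7*u^3*S^2 - 81*t^3*S^2 - 81*t^3*u*S^2 + 81*t^3*u^3*S^2 - 1258*t^3*v*S^2 +
      371*t^3*v*u*S^2 - 18*t^3*v*u*S^3 - 18*t^3*v*u*S^4 + 380*t^3*v*u^2*S^2 + 54*t^3*v*u^2*S^3 +
      18*t^3*v*u^2*S^4 + 81*t^3*v*u^3*S + 351*t^3*v*u^3*S^2 + 18*t^3*v*u^3*S^4 - 4191*t^3*v^2*S^2
      - 81*t^3*v^2*u*S - 442*t^3*v^2*u*S^2 - 733*t^3*v^2*u^2*S + 2852*t^3*v^2*u^2*S^2 +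
      90*t^3*v^2*u^2*S^3 + 18*t^3*v^2*u^2*S^4 - 290*t^3*v^2*u^3*S + 468*t^3*v^2*u^3*S^2 +
      36*t^3*v^2*u^3*S^3 + 4650*t^3*v^3*S - 763*t^3*v^3*S^2 + 1345*t^3*v^3*S^3 - 588*t^3*v^3*S^4
      + 1072*t^3*v^3*u*S + 987*t^3*v^3*u*S^2 + 2500*t^3*v^3*u*S^3 - 1290*t^3*v^3*u*S^4 -
      1285*t^3*v^3*u^2*S - 2064*t^3*v^3*u^2*S^2 + 2697*t^3*v^3*u^2*S^3 - 1512*t^3*v^3*u^2*S^4 -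
      622*t^3*v^3*u^3*S + 155*t^3*v^3*u^3*S^2 - 612*t^3*v^3*u^3*S^3 + 324*t^3*v^3*u^3*S^4 +
      182*t^3*v^4*S - 850*t^3*v^4*S^2 + 870*t^3*v^4*S^3 + 504*t^3*v^4*S^4 + 200*t^3*v^4*u -
      2359*t^3*v^4*u*S + 254*t^3*v^4*u*S^2 - 900*t^3*v^4*u*S^3 + 684*t^3*v^4*u*S^4 -
      3399*t^3*v^4*u^2 + 4267*t^3*v^4*u^2*S - 79*t^3*v^4*u^2*S^2 - 1530*t^3*v^4*u^2*S^3 +
      324*t^3*v^4*u^2*S^4 + 1389*t^3*v^4*u^3 + 868*t^3*v^4*u^3*S - 1011*t^3*v^4*u^3*S^2 -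
      180*t^3*v^4*u^3*S^3 + 450*t^3*v^5*S^2 - 270*t^3*v^5*S^3 + 36*t^3*v^5*S^4 + 180*t^3*v^5*u*S
      - 648*t^3*v^5*u*S^2 - 486*t^3*v^5*u*S^3 - 36*t^3*v^5*u*S^4 + 108*t^3*v^5*u^2 -
      24*t^3*v^5*u^2*S - 828*t^3*v^5*u^2*S^3 - 18*t^3*v^5*u^2*S^4 + 180*t^3*v^5*u^3*S^3 -
      162*t^3*v^6*S^2 - 36*t^3*v^6*S^3 - 54*t^3*v^6*u*S + 234*t^3*v^6*u*S^2 + 36*t^3*v^6*u*S^3 -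
      54*t^3*v^6*u^2 - 162*t^3*v^6*u^2*S + 18*t^3*v^6*u^2*S^2 + 126*t^3*v^6*u^2*S^3 +
      54*t^3*v^7*u^2*S - 81*t^4*S^2 - 162*t^4*u*S^2 - 81*t^4*u^2*S^2 - 45*t^4*v*S^2 -
      396*t^4*v*u*S^2 + 18*t^4*v*u*S^3 + 18*t^4*v*u*S^4 + 81*t^4*v*u^2*S - 351*t^4*v*u^2*S^2 -
      18*t^4*v*u^2*S^3 - 18*t^4*v*u^2*S^4 + 81*t^4*v*u^3*S - 18*t^4*v*u^3*S^2 - 751*t^4*v^2*S^2 -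
      36*t^4*v^2*u*S - 704*t^4*v^2*u*S^2 + 36*t^4*v^2*u*S^3 - 18*t^4*v^2*u*S^4 + 36*t^4*v^2*u^2*S
      - 522*t^4*v^2*u^2*S^2 - 54*t^4*v^2*u^2*S^3 + 351*t^4*v^2*u^3*S + 18*t^4*v^2*u^3*S^3 +
      18*t^4*v^2*u^3*S^4 + 1255*t^4*v^3*S + 200*t^4*v^3*S^2 - 1788*t^4*v^3*S^3 + 756*t^4*v^3*S^4
      + 1626*t^4*v^3*u*S + 463*t^4*v^3*u*S^2 + 276*t^4*v^3*u*S^3 + 396*t^4*v^3*u*S^4 -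
      392*t^4*v^3*u^2*S - 92*t^4*v^3*u^2*S^2 + 612*t^4*v^3*u^2*S^3 - 324*t^4*v^3*u^2*S^4 +
      405*t^4*v^3*u^3*S + 108*t^4*v^3*u^3*S^2 + 36*t^4*v^3*u^3*S^3 - 18*t^4*v^3*u^3*S^4 +
      1272*t^4*v^4*S^3 - 288*t^4*v^4*S^4 + 162*t^4*v^4*u - 270*t^4*v^4*u*S - 486*t^4*v^4*u*S^2 +
      1422*t^4*v^4*u*S^3 - 108*t^4*v^4*u*S^4 - 1201*t^4*v^4*u^2 - 404*t^4*v^4*u^2*S +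
      732*t^4*v^4*u^2*S^2 - 252*t^4*v^4*u^2*S^3 + 18*t^4*v^4*u^2*S^4 + 241*t^4*v^4*u^3 +
      128*t^4*v^4*u^3*S - 576*t^4*v^4*u^3*S^2 - 108*t^4*v^5*u + 162*t^4*v^5*u*S -
      54*t^4*v^5*u*S^2 - 54*t^4*v^5*u^2 + 54*t^4*v^5*u^2*S + 126*t^4*v^5*u^2*S^3 -
      36*t^4*v^5*u^3*S^3 + 108*t^4*v^6*u - 54*t^4*v^6*u*S + 54*t^4*v^6*u^2 - 54*t^4*v^7*u +
      117*t^5*v*S^2 + 18*t^5*v*u^2*S^2 + 18*t^5*v*u^2*S^3 - 18*t^5*v*u^3*S + 360*t^5*v^2*S^2 -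
      36*t^5*v^2*u*S - 54*t^5*v^2*u*S^2 - 18*t^5*v^2*u*S^3 - 18*t^5*v^2*u^2*S +
      36*t^5*v^2*u^2*S^2 - 54*t^5*v^2*u^3*S - 108*t^5*v^3*S^2 - 36*t^5*v^3*S^3 + 90*t^5*v^3*u*S +
      72*t^5*v^3*u*S^2 - 72*t^5*v^3*u*S^3 + 18*t^5*v^3*u*S^4 - 54*t^5*v^3*u^2*S -
      36*t^5*v^3*u^2*S^2 - 54*t^5*v^3*u^3*S^2 - 18*t^5*v^3*u^3*S^3 - 756*t^5*v^4*S^3 -
      54*t^5*v^4*u + 54*t^5*v^4*u*S + 342*t^5*v^4*u*S^3 + 54*t^5*v^5*u) * hR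
    + (-81*v^2*S + 81*v^3 - 162*v^3*S - 1312*v^3*S^2 + 81*v^3*u*S + 817*v^3*u*S^2 - 443*v^3*u*S^3
      + 162*v^4*S + 495*v^4*u*S + 1069*v^5*u*S - 162*v^6*u*S + 162*t*v*S + 2057*t*v^2*S -
      2583*t*v^2*u*S - 988*t*v^3 - 1510*t*v^3*S - 1308*t*v^3*S^2 + 21*t*v^3*S^3 + 1188*t*v^3*u +
      1320*t*v^3*u*S - 4803*t*v^3*u*S^2 - 393*t*v^3*u*S^3 + 106*t*v^4*S + 3348*t*v^4*u*S +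
      468*t*v^5*S - 678*t*v^5*u*S - 162*t*v^6*S + 108*t*v^6*u*S - 54*t*v^7*u*S - 81*t^2*u*S +
      243*t^2*v*S + 1368*t^2*v*S^2 - 1348*t^2*v*u*S + 1051*t^2*v*u*S^2 - 18*t^2*v*u*S^3 +
      3206*t^2*v^2*S - 426*t^2*v^2*S^2 - 1508*t^2*v^2*u*S - 2151*t^2*v^2*u*S^2 +
      162*t^2*v^2*u*S^3 - 3800*t^2*v^3 - 868*t^2*v^3*S - 817*t^2*v^3*S^2 - 712*t^2*v^3*S^3 +
      4787*t^2*v^3*u + 3645*t^2*v^3*u*S - 2711*t^2*v^3*u*S^2 - 594*t^2*v^3*u*S^3 + 164*t^2*v^4 -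
      749*t^2*v^4*S + 642*t^2*v^4*S^2 - 786*t^2*v^4*S^3 - 555*t^2*v^4*u + 3167*t^2*v^4*u*S +
      1626*t^2*v^4*u*S^2 + 252*t^2*v^4*u*S^3 + 18*t^2*v^5 + 396*t^2*v^5*S + 306*t^2*v^5*S^2 -
      90*t^2*v^5*S^3 + 162*t^2*v^5*u - 954*t^2*v^5*u*S - 180*t^2*v^5*u*S^2 - 126*t^2*v^5*u*S^3 -
      162*t^2*v^6*S + 18*t^2*v^6*S^2 - 54*t^2*v^6*u + 162*t^2*v^6*u*S - 54*t^2*v^6*u*S^2 +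
      81*t^3*S + 81*t^3*u*S + 1339*t^3*v*S - 254*t^3*v*u*S + 1833*t^3*v^2*S - 746*t^3*v^2*u*S -
      4569*t^3*v^3 + 2596*t^3*v^3*S + 11*t^3*v^3*S^2 + 1551*t^3*v^3*u + 330*t^3*v^3*u*S -
      1731*t^3*v^3*u*S^2 + 516*t^3*v^4*S^2 - 180*t^3*v^4*S^3 + 1062*t^3*v^4*u*S^2 -
      234*t^3*v^4*u*S^3 + 126*t^3*v^5*S^3 + 81*t^4*S + 81*t^4*u*S + 126*t^4*v*S + 315*t^4*v*u*S +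
      191*t^4*v^2*S + 297*t^4*v^2*u*S - 1255*t^4*v^3 - 332*t^4*v^3*S + 912*t^4*v^3*S^2 +
      187*t^4*v^3*u - 70*t^4*v^3*u*S - 558*t^4*v^3*u*S^2 - 756*t^4*v^4*S^2 + 144*t^4*v^4*S^3 +
      342*t^4*v^4*u*S^2 - 36*t^4*v^4*u*S^3) * h1
    + (-162*v*S + 81*v^2 - 2300*v^2*S + 2259*v^2*u*S + 1069*v^3 + 243*v^3*S - 1312*v^3*S^2 -
      1026*v^3*u - 756*v^3*u*S + 605*v^3*u*S^2 - 54*v^3*u*S^3 + 162*v^4*u*S + 81*t*u*S - 81*t*v*S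
      + 1510*t*v*u*S - 2193*t*v^2*S + 3423*t*v^2*u*S + 3737*t*v^3 - 868*t*v^3*S + 1415*t*v^3*S^2
      - 368*t*v^3*S^3 - 4000*t*v^3*u - 759*t*v^3*u*S + 252*t*v^3*u*S^2 + 108*t*v^3*u*S^3 +
      1069*t*v^4*S - 655*t*v^4*u*S - 162*t*v^5*S + 54*t*v^5*u*S - 81*t^2*S + 81*t^2*u*S -
      2545*t^2*v*S + 36*t^2*v*S^2 + 1791*t^2*v*u*S + 144*t^2*v*u*S^2 - 36*t^2*v*u*S^3 -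
      3612*t^2*v^2*S + 1015*t^2*v^2*S^2 + 2652*t^2*v^2*u*S - 288*t^2*v^2*u*S^2 +
      144*t^2*v^2*u*S^3 + 5946*t^2*v^3 - 2775*t^2*v^3*S + 222*t^2*v^3*S^2 - 956*t^2*v^3*S^3 -
      5357*t^2*v^3*u + 108*t^2*v^3*u*S + 1792*t^2*v^3*u*S^2 - 738*t^2*v^3*u*S^3 + 18*t^2*v^4 +
      619*t^2*v^4*S + 1428*t^2*v^4*S^2 - 504*t^2*v^4*S^3 + 216*t^2*v^4*u - 1735*t^2*v^4*u*S +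
      804*t^2*v^4*u*S^2 - 558*t^2*v^4*u*S^3 - 108*t^2*v^5*S - 270*t^2*v^5*S^2 + 324*t^2*v^5*S^3 -
      54*t^2*v^5*u + 378*t^2*v^5*u*S - 612*t^2*v^5*u*S^2 + 198*t^2*v^5*u*S^3 - 54*t^2*v^6*S^2 -
      54*t^2*v^6*u + 54*t^2*v^6*u*S^2 - 81*t^3*S - 81*t^3*u*S - 1377*t^3*v*S + 146*t^3*v*u*S -
      957*t^3*v^2*S + 98*t^3*v^2*u*S + 4569*t^3*v^3 - 3133*t^3*v^3*S - 227*t^3*v^3*S^2 +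
      168*t^3*v^3*S^3 - 1684*t^3*v^3*u - 1077*t^3*v^3*u*S + 3081*t^3*v^3*u*S^2 -
      1080*t^3*v^3*u*S^3 + 792*t^3*v^4*S^3 - 126*t^3*v^4*u*S^3 - 126*t^3*v^5*S^3 - 81*t^4*u*S +
      234*t^4*v*S - 333*t^4*v*u*S + 34*t^4*v^2*S - 414*t^4*v^2*u*S + 1255*t^4*v^3 + 296*t^4*v^3*S
      - 1668*t^4*v^3*S^2 + 756*t^4*v^3*S^3 - 241*t^4*v^3*u - 128*t^4*v^3*u*S + 918*t^4*v^3*u*S^2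
      - 342*t^4*v^3*u*S^3 - 144*t^4*v^4*S^3 + 36*t^4*v^4*u*S^3) * h2
    + (-81*t*v^3*u - 281*t^2*v^3*u - 162*t^2*v^4*u + 108*t^2*v^5*u - 54*t^2*v^6*u - 162*t^3*v^3*u
      - 117*t^4*v*S^2 - 360*t^4*v^2*S^2 + 36*t^4*v^2*u*S^2 + 72*t^4*v^3*S^2 + 36*t^4*v^3*S^3 +
      54*t^4*v^3*u + 81*t^4*v^3*u*S - 198*t^4*v^3*u*S^2 + 90*t^4*v^3*u*S^3 - 18*t^4*v^3*u*S^4) * h3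
    + (-81*v^2*u*S - 1312*v^3*u*S - 1312*v^3*u*S^2 + 324*v^4*u*S + 81*t*v*S + 162*t*v*u*S +
      1150*t*v^2*S + 788*t*v^2*u*S - 956*t*v^3*S + 1343*t*v^3*S^2 - 389*t*v^3*S^3 -
      3360*t*v^3*u*S + 1270*t*v^3*u*S^2 - 368*t*v^3*u*S^3 + 1393*t*v^4*S + 302*t*v^4*u*S -
      162*t*v^5*S + 925*t*v^5*u*S + 81*t^2*u*S + 81*t^2*v*S - 1332*t^2*v*S^2 + 1375*t^2*v*u*S -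
      871*t^2*v*u*S^2 + 18*t^2*v^2*S + 1441*t^2*v^2*S^2 - 434*t^2*v^2*u*S + 1744*t^2*v^2*u*S^2 +
      81*t^2*v^3 + 411*t^2*v^3*S - 2048*t^2*v^3*S^2 + 344*t^2*v^3*S^3 - 1332*t^2*v^3*u -
      1935*t^2*v^3*u*S - 154*t^2*v^3*u*S^2 + 78*t^2*v^3*u*S^3 - 200*t^2*v^4 + 2326*t^2*v^4*S +
      1706*t^2*v^4*S^2 + 366*t^2*v^4*S^3 - 77*t^2*v^4*u - 598*t^2*v^4*u*S + 462*t^2*v^4*u*S^2 -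
      252*t^2*v^4*u*S^3 - 234*t^2*v^5*S + 108*t^2*v^5*S^2 - 126*t^2*v^5*S^3 + 132*t^2*v^5*u*S -
      144*t^2*v^5*u*S^2 - 90*t^2*v^5*u*S^3 - 180*t^2*v^6*S^2 - 36*t^2*v^6*S^3 + 162*t^2*v^6*u*S +
      36*t^2*v^6*u*S^2 - 54*t^2*v^7*u*S + 45*t^3*v*u*S - 648*t^3*v^2*S + 144*t^3*v^2*u*S -
      178*t^3*v^3*S - 727*t^3*v^3*S^2 + 45*t^3*v^3*u*S + 81*t^3*v^3*u*S^2 + 756*t^3*v^4*S^2 +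
      180*t^3*v^4*u*S^2 - 72*t^3*v^4*u*S^3 + 18*t^3*v^5*u*S^3 + 36*t^4*v*S - 333*t^4*v^3*S) * hF
    + (-958*t*v^3*u*S + 634*t*v^3*u*S^2 - 652*t^2*v^2*u*S + 1672*t^2*v^2*u*S^2 - 428*t^2*v^3*S +
      1422*t^2*v^3*S^2 - 2028*t^2*v^3*u*S + 518*t^2*v^3*u*S^2 - 18*t^4*v*u^2*S - 72*t^4*v^2*u^2*S
      - 54*t^4*v^3*u^2*S - 36*t^4*v^3*u^2*S^2) * hD)

end Pool.Agent.Helper85.IP
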