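import Mathlib
import Pool.Agent.Helper27.IP.K2Dual

/-!
TH-P, K2-1, letter 1 (`t_4 = sigma t_2`): `Ea`, `B2`, `B3` give `u = -1` and `r = t_2 / t_1 = -1`
(so `s_4 = u r^3 = 1 = s_0`, a contradiction).
-/

namespace Pool.Agent.Helper85.IP

open Pool.Agent.Helper27.IP

/-- the certificate: `Ea, Eb, B3` give `u = -1` up to nondegenerate factors -/
theorem l1_cert {F : Type*} [CommRing F] {S v u : F}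
    (hEa : (v+1-S)*((S-v)^2-S)*u^2 + S*(S*(v+1)-v)*(v+1-S)*u - S*(S*(v+1)-v)*(2*S-v-1) = 0)
    (hEb : v*(v+1-S)*(2*v-S*v-S)*u^2 - v*(v+1-S)*(S*(v+1)-v)*u
      - (S*(v+1)-v)*((S-v)^2-S*v^2) = 0)
    (hB3 : -v^2*(v+1-S)*u^4 + S*(v^2+v+1)*(v+1-S)*u^3 - S*(v^2+v+1)*(S-1)*(v+1)*u^2
      - S*(v^2+v+1)*(S*(v+1)-v)*u + S^2*(S*(v+1)-v) = 0) :
    (u+1)*((v+1)*(S-v)*(S*(S*(v+1)-v)-u*(v+1-S))*(v^2*(S*v+1)-(u+v)*(v+1-S)^2)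
      *(u^2*v^2*(v+1-S)-u*v*(v+1-S)*(S*(v+1)-v)+(S*(v+1)-v)*((S*(v+1)-v)*v-S))) = 0 := by
  linear_combination
    (- 44*v*u - 130*v*u^2 - 86*v*u^3 - 44*v^2 - 2609*v^2*u - 4153*v^2*u^2 + 1694*v^2*u^3 -
      611*v^2*u^4 - 2523*v^3 - 2098*v^3*u - 5325*v^3*u^2 + 2134*v^3*u^3 - 617*v^3*u^4 - 597*v^4
      - 553*v^4*u - 1173*v^4*u^2 + 481*v^4*u^3 + 3*v^4*u^4 - 109*v^5 - 83*v^5*u - 133*v^5*u^2 +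
      158*v^5*u^3 + 22*v^5*u^4 - 9*v^6 + v^6*u + 26*v^6*u^3 - 9*v^6*u^4 + 44*S*u^2 + 44*S*u^3 +
      88*S*v + 2571*S*v*u + 1312*S*v*u^2 - 780*S*v*u^3 + 305*S*v*u^4 + 7441*S*v^2 +
      4864*S*v^2*u + 7584*S*v^2*u^2 - 3887*S*v^2*u^3 + 1325*S*v^2*u^4 + 6699*S*v^3 +
      1677*S*v^3*u + 3713*S*v^3*u^2 - 1791*S*v^3*u^3 + 600*S*v^3*u^4 + 1481*S*v^4 + 524*S*v^4*u
      + 716*S*v^4*u^2 - 465*S*v^4*u^3 + 80*S*v^4*u^4 + 245*S*v^5 + 85*S*v^5*u + 62*S*v^5*u^2 -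
      109*S*v^5*u^3 + 14*S*v^5*u^4 + 17*S*v^6 - S*v^6*u - 3*S*v^6*u^2 - 13*S*v^6*u^3 +
      2*S*v^6*u^4 - 44*S^2 - 89*S^2*u - 5*S^2*u^2 - 4*S^2*u^3 - 7315*S^2*v + 942*S^2*v*u -
      2139*S^2*v*u^2 + 936*S^2*v*u^3 - 316*S^2*v*u^4 - 9137*S^2*v^2 + 1286*S^2*v^2*u -
      2748*S^2*v^2*u^2 + 1236*S^2*v^2*u^3 - 433*S^2*v^2*u^4 - 4592*S^2*v^3 + 1568*S^2*v^3*u -
      953*S^2*v^3*u^2 + 337*S^2*v^3*u^3 - 109*S^2*v^3*u^4 - 960*S^2*v^4 + 389*S^2*v^4*u -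
      225*S^2*v^4*u^2 + 77*S^2*v^4*u^3 - 24*S^2*v^4*u^4 - 141*S^2*v^5 + 77*S^2*v^5*u -
      50*S^2*v^5*u^2 + 16*S^2*v^5*u^3 - 5*S^2*v^5*u^4 - 7*S^2*v^6 + 10*S^2*v^6*u -
      9*S^2*v^6*u^2 + 4*S^2*v^6*u^3 + S^2*v^6*u^4 + 2397*S^3 - 1227*S^3*u + 313*S^3*u^2 +
      6*S^3*u^3 + 3160*S^3*v - 1544*S^3*v*u + 459*S^3*v*u^2 - 21*S^3*v*u^3 + 11*S^3*v*u^4 +
      949*S^3*v^2 - 414*S^3*v^2*u + 188*S^3*v^2*u^2 - 34*S^3*v^2*u^3 + 13*S^3*v^2*u^4 +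
      306*S^3*v^3 - 134*S^3*v^3*u + 60*S^3*v^3*u^2 - 13*S^3*v^3*u^3 + 3*S^3*v^3*u^4 +
      63*S^3*v^4 - 45*S^3*v^4*u + 16*S^3*v^4*u^2 - 3*S^3*v^4*u^3 + S^3*v^4*u^4 + 5*S^3*v^5 -
      11*S^3*v^5*u + 2*S^3*v^5*u^2 - S^3*v^5*u^3 - S^3*v^6 - S^3*v^6*u + S^3*v^6*u^2 - 79*S^4 +
      37*S^4*u - 9*S^4*u^2 - 106*S^4*v + 51*S^4*v*u - 11*S^4*v*u^2 - 37*S^4*v^2 + 18*S^4*v^2*u
      - S^4*v^2*u^2 - 9*S^4*v^3 + 9*S^4*v^3*u - S^4*v^3*u^2 + S^4*v^4 + 2*S^4*v^4*u) * hEa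
    + (43*v*u^2 + 42*v*u^3 - 43*v*u^4 - v^2*u + 2562*v^2*u^2 - 980*v^2*u^3 + 163*v^2*u^4 -
      3*v^3*u + 3111*v^3*u^2 - 1174*v^3*u^3 + 224*v^3*u^4 - 4*v^4*u + 698*v^4*u^2 - 185*v^4*u^3
      + 12*v^4*u^4 - 3*v^5*u + 114*v^5*u^2 - 42*v^5*u^3 - v^5*u^4 - v^6*u + 8*v^6*u^2 -
      9*v^6*u^3 + 5*v^6*u^4 - 44*S - 44*S*u - 2509*S*u^2 + 1077*S*u^3 - 305*S*u^4 - 2567*S*v -
      1491*S*v*u - 7185*S*v*u^2 + 3216*S*v*u^3 - 951*S*v*u^4 - 3120*S*v^2 - 1916*S*v^2*u -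
      8175*S*v^2*u^2 + 3910*S*v^2*u^3 - 1032*S*v^2*u^4 - 707*S*v^3 - 581*S*v^3*u -
      1845*S*v^3*u^2 + 1049*S*v^3*u^3 - 168*S*v^3*u^4 - 120*S*v^4 - 203*S*v^4*u - 400*S*v^4*u^2
      + 267*S*v^4*u^3 - 17*S*v^4*u^4 - 11*S*v^5 - 62*S*v^5*u - 87*S*v^5*u^2 + 32*S*v^5*u^3 -
      14*S*v^5*u^4 - S*v^6 - 13*S*v^6*u - 10*S*v^6*u^2 + S*v^6*u^3 + S*v^6*u^4 + 2396*S^2 +
      1363*S^2*u + 4077*S^2*u^2 - 2062*S^2*u^3 + 621*S^2*u^4 + 10322*S^2*v + 3226*S^2*v*u +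
      6213*S^2*v*u^2 - 3150*S^2*v*u^3 + 1105*S^2*v*u^4 + 4909*S^2*v^2 + 2229*S^2*v^2*u +
      715*S^2*v^2*u^2 - 583*S^2*v^2*u^3 + 255*S^2*v^2*u^4 + 1057*S^2*v^3 + 493*S^2*v^3*u +
      50*S^2*v^3*u^2 - 196*S^2*v^3*u^3 + 38*S^2*v^3*u^4 + 164*S^2*v^4 + 71*S^2*v^4*u -
      15*S^2*v^4*u^2 - 40*S^2*v^4*u^3 + 16*S^2*v^4*u^4 + 14*S^2*v^5 + 20*S^2*v^5*u +
      4*S^2*v^5*u^2 - 4*S^2*v^5*u^3 - 2*S^2*v^5*u^4 + 2*S^2*v^6 + 6*S^2*v^6*u + 4*S^2*v^6*u^2 -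
      4890*S^3 + 13*S^3*u - 1919*S^3*u^2 + 966*S^3*u^3 - 327*S^3*u^4 - 6212*S^3*v -
      113*S^3*v*u^4 - 1484*S^3*v^2 - 21*S^3*v^2*u^4 - 299*S^3*v^3 - 8*S^3*v^3*u^4 - 35*S^3*v^4
      + S^3*v^4*u^4 - 4*S^3*v^5 - 3*S^3*v^5*u + 2*S^3*v^5*u^2 + S^3*v^5*u^3 - S^3*v^6 -
      S^3*v^6*u + 169*S^4 - 3*S^4*u + 54*S^4*u^2 - 27*S^4*u^3 + 11*S^4*u^4 + 202*S^4*v +
      2*S^4*v*u^4 + 78*S^4*v^2 + S^4*v^2*u^4 + 18*S^4*v^3 + S^4*v^4 + S^4*v^5 + S^4*v^5*u + S^5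
      - 2*S^5*u - 2*S^5*v) * hEb
    + (- 44*v*u - 86*v*u^2 - 43*v^2 - 99*v^2*u - 285*v^2*u^2 - 56*v^3 + 16*v^3*u - 169*v^3*u^2 +
      68*v^4 + 127*v^4*u + 27*v^4*u^2 + 52*v^5 + 74*v^5*u + 20*v^5*u^2 + 13*v^6 + 13*v^6*u +
      v^6*u^2 + 44*S*u^2 + 176*S*v + 61*S*v*u + 122*S*v*u^2 + 282*S*v^2 + 94*S*v^2*u +
      105*S*v^2*u^2 + 64*S*v^3 + 4*S*v^3*u - 107*S*v^4 - 52*S*v^4*u - 79*S*v^5 - 34*S*v^5*u -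
      17*S*v^6 - 5*S*v^6*u - S*v^6*u^2 - 89*S^2 - 45*S^2*u - 48*S^2*u^2 - 84*S^2*v - 17*S^2*v*u
      + 10*S^2*v*u^2 + 15*S^2*v^2 + 5*S^2*v^3 + 19*S^2*v^4 + 18*S^2*v^5 + 4*S^2*v^6 + S^2*v^6*u
      - 17*S^3 + 7*S^3*u + 10*S^3*u^2 - 47*S^3*v - 21*S^3*v^2 + 11*S^4 - 6*S^4*u - 6*S^4*u^2 -
      11*S^4*v + 8*S^4*v^2 + S^5 - 2*S^5*u - 2*S^5*v) * hB3

/-- `Eb = Ea + B2` -/
theorem k21_Eb {F : Type*} [Field F] {S v u : F}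
    (hEa : (v+1-S)*((S-v)^2-S)*u^2 + S*(S*(v+1)-v)*(v+1-S)*u - S*(S*(v+1)-v)*(2*S-v-1) = 0)
    (hB2 : pB2 S v u = 0) :
    v*(v+1-S)*(2*v-S*v-S)*u^2 - v*(v+1-S)*(S*(v+1)-v)*u
      - (S*(v+1)-v)*((S-v)^2-S*v^2) = 0 := by
  rw [pB2, pP, pQ] at hB2
  linear_combination hEa + hB2

/-- K2-1, letter 1 -/
theorem k21_letter1 {F : Type*} [Field F] {t v u S r : F} (ht : t ≠ 0) (hv : v ≠ 0)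
    (hv1 : v + 1 ≠ 0) (hS : S ≠ 0) (hSv : S - v ≠ 0) (htd : v + 1 - S ≠ 0)
    (hStu : S * t - u ≠ 0)
    (hell : v ^ 2 * (S * v + 1) - (u + v) * (v + 1 - S) ^ 2 ≠ 0)
    (hmp : u ^ 2 * v ^ 2 * (v + 1 - S) - u * v * (v + 1 - S) * (S * (v + 1) - v)
      + (S * (v + 1) - v) * ((S * (v + 1) - v) * v - S) ≠ 0)
    (R : t * (v + 1 - S) = S * (v + 1) - v) (hr : S = v * (t * r))
    (hEa : (v+1-S)*((S-v)^2-S)*u^2 + S*(S*(v+1)-v)*(v+1-S)*u - S*(S*(v+1)-v)*(2*S-v-1) = 0)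
    (hB2 : pB2 S v u = 0) (hB3 : pB3 S v u = 0) : u = -1 ∧ r = -1 := by
  have hEb := k21_Eb hEa hB2
  rw [pB3] at hB3
  have h1 := l1_cert hEa hEb (by linear_combination hB3)
  have h2 : S * (S * (v + 1) - v) - u * (v + 1 - S) ≠ 0 := by
    intro h
    refine mul_ne_zero htd hStu ?_
    linear_combination h + S * R
  have h3 : (v+1)*(S-v)*(S*(S*(v+1)-v)-u*(v+1-S))*(v^2*(S*v+1)-(u+v)*(v+1-S)^2)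
      *(u^2*v^2*(v+1-S)-u*v*(v+1-S)*(S*(v+1)-v)+(S*(v+1)-v)*((S*(v+1)-v)*v-S)) ≠ 0 :=
    mul_ne_zero (mul_ne_zero (mul_ne_zero (mul_ne_zero hv1 hSv) h2) hell) hmp
  have hu : u = -1 := by
    rcases mul_eq_zero.1 h1 with h | h
    · linear_combination h
    · exact (h3 h).elim
  refine ⟨hu, ?_⟩
  subst hu
  have a1 : t * S ^ 2 = (S - v) ^ 2 - S := by
    apply mul_left_cancel₀ htd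
    linear_combination (-1 : F) * hEa + S ^ 2 * R
  have a2 : t * ((S - v) ^ 2 - S * v ^ 2) = v ^ 2 := by
    apply mul_left_cancel₀ htd
    linear_combination (-1 : F) * hEb + ((S - v) ^ 2 - S * v ^ 2) * R
  have a3 : t = (v + 1) ^ 2 - S := by
    apply mul_left_cancel₀ hS
    apply mul_left_cancel₀ htd
    linear_combination hB3 - (v + 1 - S) * a1 + (S + S ^ 2) * R
  have a4 : S ^ 2 - S * (v + 1) ^ 2 + v ^ 2 = 0 := by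
    refine (mul_eq_zero.1 ?_ : (v + 1) ^ 2 = 0 ∨ _).resolve_left (pow_ne_zero 2 hv1)
    linear_combination (-1 : F) * a1 + a2 + (S ^ 2 - ((S - v) ^ 2 - S * v ^ 2)) * a3
  have a5 : S + v * t = 0 := by
    refine (mul_eq_zero.1 ?_ : (v + 1 - S) = 0 ∨ _).resolve_left htd
    linear_combination v * R - a4
  have : v * t * (r + 1) = 0 := by linear_combination a5 - hr
  rcases mul_eq_zero.1 this with h | h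
  · exact (mul_ne_zero hv ht h).elim
  · linear_combination h

end Pool.Agent.Helper85.IP
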